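import Pool.Agent.U500.CoreS.Seq

/-! The candidate functions are plurisubharmonic (sub-mean along complex lines). -/

namespace U500Core

open Metric Real Set Filter Topology

noncomputable section

/-- sub-mean along every complex line through `p` (small circles) -/
def PL (c : E3 → ℝ) (p : E3) : Prop := ∀ v : E3, SMat (fun l : ℂ => c (p + l • v)) 0

lemma SMat.minorant {u v : ℂ → ℝ} {c : ℂ} (hv : SMat v c) (heq : v c = u c)
    (hle : ∀ᶠ z in 𝓝 c, v z ≤ u z) (hcont : ∀ᶠ z in 𝓝 c, ContinuousAt u z) : SMat u c := by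
  obtain ⟨r1, h1, c1, s1⟩ := hv
  obtain ⟨r2, h2, h3⟩ := Metric.eventually_nhds_iff_ball.1 (hle.and hcont)
  have hcu : ContinuousOn u (ball c r2) := fun z hz => ((h3 z hz).2).continuousWithinAt
  refine ⟨min r1 r2, lt_min h1 h2, hcu.mono (ball_subset_ball (min_le_right _ _)),
    fun r hr hr' => ?_⟩
  have a1 := lt_of_lt_of_le hr' (min_le_left _ _)
  have a2 := lt_of_lt_of_le hr' (min_le_right _ _)
  rw [← heq]
  refine (s1 r hr a1).trans (circleAverage_mono (circInt c1 hr a1) (circInt hcu hr a2) ?_)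
  intro z hz
  exact (h3 z (sphere_subset_ball' hr a2 hz)).1

lemma SMat.max {u v : ℂ → ℝ} {c : ℂ} (hu : SMat u c) (hv : SMat v c)
    (hu' : ∀ᶠ z in 𝓝 c, ContinuousAt u z) (hv' : ∀ᶠ z in 𝓝 c, ContinuousAt v z) :
    SMat (fun z => max (u z) (v z)) c := by
  have hc : ∀ᶠ z in 𝓝 c, ContinuousAt (fun z => Max.max (u z) (v z)) z := by
    filter_upwards [hu', hv'] with z h1 h2
    exact h1.max h2
  rcases le_total (u c) (v c) with h | h
  · exact hv.minorant (by simp [h]) (Eventually.of_forall fun z => le_max_right _ _) hc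
  · exact hu.minorant (by simp [h]) (Eventually.of_forall fun z => le_max_left _ _) hc

/-- circle average of `‖α + l β‖²` -/
lemma circleAverage_normsq (α β : ℂ) (r : ℝ) :
    circleAverage (fun l : ℂ => ‖α + l * β‖ ^ 2) 0 r = ‖α‖ ^ 2 + r ^ 2 * ‖β‖ ^ 2 := by
  have h1 : circleAverage (fun l : ℂ => ‖α + l * β‖ ^ 2) 0 r
      = circleAverage (fun l : ℂ => (‖α‖ ^ 2 + r ^ 2 * ‖β‖ ^ 2)
          + (2 * (l * (β * (starRingEnd ℂ) α))).re) 0 r := by
    apply circleAverage_congr_sphere
    intro z hz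
    have hz' : ‖z‖ ^ 2 = r ^ 2 := by
      have : ‖z‖ = |r| := by simpa using hz
      rw [this, sq_abs]
    simp only
    rw [← hz']
    simp only [Complex.sq_norm, Complex.normSq_apply]
    simp [Complex.add_re, Complex.mul_re, Complex.add_im, Complex.mul_im]
    ring
  rw [h1, circleAverage_fun_add (continuousOn_const.circleIntegrable')
    ((by fun_prop : Continuous fun l : ℂ => (2 * (l * (β * (starRingEnd ℂ) α))).re).continuousOn.circleIntegrable'),
    circleAverage_const]
  have h2 := (MVP_of_diff (F := fun l : ℂ => 2 * (l * (β * (starRingEnd ℂ) α)))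
    (by fun_prop)).re 0 r
  rw [h2]
  simp

lemma SMat_normsq (α β : ℂ) (t : ℝ) (ht : 0 ≤ t) :
    SMat (fun l : ℂ => t * ‖α + l * β‖ ^ 2) 0 := by
  refine ⟨1, one_pos, (by fun_prop), fun r _ _ => ?_⟩
  have h := circleAverage_fun_smul (f := fun l : ℂ => ‖α + l * β‖ ^ 2) (a := t) (c := 0) (R := r)
  simp only [smul_eq_mul] at h
  rw [h, circleAverage_normsq]
  simp only [zero_mul, add_zero]
  apply mul_le_mul_of_nonneg_left _ ht
  have : 0 ≤ r ^ 2 * ‖β‖ ^ 2 := by positivity
  linarith

lemma SMat_re (α β : ℂ) : SMat (fun l : ℂ => (α + l * β).re) 0 := by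
  refine ⟨1, one_pos, (by fun_prop), fun r _ _ => ?_⟩
  have h2 := (MVP_of_diff (F := fun l : ℂ => α + l * β) (by fun_prop)).re 0 r
  rw [h2]

lemma SMat_logmax (α β : ℂ) {s : ℝ} (hs : 0 < s) {D t : ℝ} (hD : 0 < D) (ht : 0 ≤ t) :
    SMat (fun l : ℂ => t * Real.log (Max.max ‖α + l * β‖ s / D)) 0 := by
  have hcont : Continuous (fun l : ℂ => t * Real.log (Max.max ‖α + l * β‖ s / D)) := by
    refine continuous_const.mul (Continuous.log (by fun_prop) ?_)
    intro z
    have : 0 < Max.max ‖α + z * β‖ s := lt_max_of_lt_right hs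
    positivity
  rcases le_or_gt ‖α‖ s with h | h
  · refine (SMat_const (t * Real.log (s / D)) 0).minorant (by simp [h]) ?_
      (Eventually.of_forall fun z => hcont.continuousAt)
    refine Eventually.of_forall fun z => ?_
    apply mul_le_mul_of_nonneg_left _ ht
    apply Real.log_le_log (by positivity)
    apply div_le_div_of_nonneg_right (le_max_right _ _) hD.le
  · have hα : 0 < ‖α‖ := hs.trans h
    -- near 0, ‖α + lβ‖ > s
    have hcont2 : Continuous (fun l : ℂ => ‖α + l * β‖) := by fun_prop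
    have hev : ∀ᶠ l in 𝓝 (0:ℂ), s < ‖α + l * β‖ := by
      apply hcont2.continuousAt.eventually_const_lt
      simpa using h
    obtain ⟨ρ, hρ, hball⟩ := Metric.eventually_nhds_iff_ball.1 hev
    have hharm : InnerProductSpace.HarmonicOnNhd (fun l : ℂ => Real.log ‖α + l * β‖)
        (ball 0 ρ) := by
      intro z hz
      apply AnalyticAt.harmonicAt_log_norm (f := fun l => α + l * β) (by fun_prop)
      have := hball z hz
      intro h0
      rw [h0, norm_zero] at this
      linarith
    have h3 := (SMat_of_harm hρ hharm t).add (SMat_const (-(t * Real.log D)) 0)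
    refine h3.congr ?_
    filter_upwards [hev] with z hz
    rw [max_eq_left hz.le, Real.log_div (by linarith) hD.ne']
    ring

lemma coord_line (p v : E3) (l : ℂ) (i : Fin 3) : (p + l • v) i = p i + l * v i := by simp

lemma PL_const (a : ℝ) (p : E3) : PL (fun _ => a) p := fun _ => SMat_const a 0

lemma SMat_fA (p v : E3) : SMat (fun l : ℂ => fA (p + l • v)) 0 := by
  have h := SMat_normsq (p 0 - 3 / 4) (v 0) 1 zero_le_one
  refine h.congr (Eventually.of_forall fun z => ?_)
  unfold fA
  rw [coord_line, one_mul]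
  congr 2
  ring

lemma PL_c1 (p : E3) : PL c1 p := fun v => by
  have h1 := SMat_fA p v
  have h2 := SMat_normsq (p 1) (v 1) 1 zero_le_one
  refine (h1.add h2).congr (Eventually.of_forall fun z => ?_)
  unfold c1
  rw [coord_line p v z 1, one_mul]

lemma PL_bB (p : E3) : PL bB p := fun v => by
  have h0 := SMat_normsq (p 0) (v 0) (1/1000) (by norm_num)
  have h1 := SMat_normsq (p 1) (v 1) (1/1000) (by norm_num)
  have h2 := SMat_normsq (p 2) (v 2) (1/1000) (by norm_num)
  refine (((h0.add h1).add h2).add (SMat_const (1/32) 0)).congr (Eventually.of_forall fun z => ?_)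
  unfold bB
  rw [norm_sq3, coord_line, coord_line, coord_line]
  ring

lemma PL_c2 (k : ℕ) (p : E3) : PL (c2 k) p := fun v => by
  have h1 := SMat_fA p v
  have hr := rho_pos k
  have h2 := SMat_re (2 * aa k * p 1) (2 * aa k * v 1)
  have h3 := SMat_logmax (p 1 - aa k) (v 1) (sg_pos k) (D := rho k) hr
    (t := rho k ^ 2 / 16) (by positivity)
  refine (((h1.add h2).add h3).add (SMat_const (rho k ^ 2 / 2 - aa k ^ 2) 0)).congr
    (Eventually.of_forall fun z => ?_)
  unfold c2 hh fT
  rw [coord_line p v z 1]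
  have e1 : p 1 + z * v 1 - (aa k : ℂ) = p 1 - aa k + z * v 1 := by ring
  rw [e1]
  have e2 : ‖p 1 + z * v 1‖ ^ 2 - ‖p 1 - (aa k:ℂ) + z * v 1‖ ^ 2
      = (2 * (aa k : ℂ) * p 1 + z * (2 * aa k * v 1)).re - aa k ^ 2 := by
    simp only [Complex.sq_norm, Complex.normSq_apply]
    simp
    ring
  linarith

lemma fF_line (k : ℕ) (p v : E3) (l : ℂ) :
    fF k (p + l • v) = fF k p + l * (v 0 + dd k * cc k * v 2 / 2) := by
  unfold fF
  rw [coord_line, coord_line]
  ring

lemma PL_gG (k : ℕ) (p : E3) : PL (gG k) p := fun v => by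
  have h1 := SMat_fA p v
  have he := ee_pos k
  have hL := LL_pos k
  have h3 := SMat_logmax (fF k p) (v 0 + dd k * cc k * v 2 / 2) (ss_pos k) (D := 6) (by norm_num)
    (t := 64 * ee k / LL k) (by positivity)
  refine (h1.add h3).congr (Eventually.of_forall fun z => ?_)
  unfold gG
  rw [fF_line]

end

end U500Core
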