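import Pool.Agent.U500.CoreS.Cand

/-! The continuous plurisubharmonic function. -/

namespace U500Core

open Metric Real Set Filter Topology

noncomputable section

open Classical in
def X1 (k : ℕ) (p : E3) : ℝ := if rho k / 4 < fT k p then max (c2 k p) (c1 p) else c2 k p
open Classical in
def X2 (k : ℕ) (p : E3) : ℝ := if ‖fF k p‖ < rr k then max (gG k p) (vv k) else gG k p
open Classical in
def Th (k : ℕ) (p : E3) : ℝ := if fT k p < rho k / 2 then max (X1 k p) (X2 k p) else X1 k p
open Classical in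
def ph0 (p : E3) : ℝ :=
  if h : ∃ k, fT k p < rho k then max (bB p) (Th h.choose p) else max (bB p) (c1 p)
open Classical in
def phi (p : E3) : ℝ := if h : ∃ k, p ∈ Tub k then vv h.choose else ph0 p

lemma Tub_slab {k : ℕ} {p : E3} (h : p ∈ Tub k) : fT k p < rho k := by
  have := sg_lt k
  have := rho_pos k
  have := h.1
  linarith

lemma ph0_slab {k : ℕ} {p : E3} (h : fT k p < rho k) : ph0 p = max (bB p) (Th k p) := by
  have hex : ∃ k, fT k p < rho k := ⟨k, h⟩
  unfold ph0
  rw [dif_pos hex, slab_unique hex.choose_spec h]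

lemma ph0_out {p : E3} (h : ∀ k, rho k ≤ fT k p) : ph0 p = max (bB p) (c1 p) := by
  unfold ph0
  rw [dif_neg]
  rintro ⟨k, hk⟩
  exact absurd hk (not_lt.2 (h k))

lemma phi_tub {k : ℕ} {p : E3} (h : p ∈ Tub k) : phi p = vv k := by
  have hex : ∃ k, p ∈ Tub k := ⟨k, h⟩
  unfold phi
  rw [dif_pos hex, slab_unique (Tub_slab hex.choose_spec) (Tub_slab h)]

lemma fA_nonneg (p : E3) : 0 ≤ fA p := by unfold fA; positivity

lemma X1_le {k : ℕ} {p : E3} (ht : fT k p < rho k) :
    X1 k p ≤ fA p + ‖p 1‖ ^ 2 + rho k ^ 2 / 2 := by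
  have h1 := hh_le ht
  have h2 : c2 k p ≤ fA p + ‖p 1‖ ^ 2 + rho k ^ 2 / 2 := by unfold c2; linarith
  have h3 : c1 p ≤ fA p + ‖p 1‖ ^ 2 + rho k ^ 2 / 2 := by
    unfold c1; have := sq_nonneg (rho k); linarith
  unfold X1
  split_ifs
  · exact max_le h2 h3
  · exact h2

lemma X2_le {k : ℕ} {p : E3} (hp : p ∈ Om0) : X2 k p ≤ fA p := by
  unfold X2
  split_ifs with h
  · exact max_le (gG_le hp) (vv_le hp h.le)
  · exact gG_le hp

lemma Th_le {k : ℕ} {p : E3} (hp : p ∈ Om0) (ht : fT k p < rho k) :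
    Th k p ≤ fA p + ‖p 1‖ ^ 2 + rho k ^ 2 / 2 := by
  have h1 := X1_le ht
  have h2 := X2_le (k := k) hp
  have := sq_nonneg (rho k)
  have := sq_nonneg ‖p 1‖
  unfold Th
  split_ifs
  · exact max_le h1 (by linarith)
  · exact h1

lemma Th_ge {k : ℕ} {p : E3} : fA p - 128 * ee k ≤ Th k p := by
  have he := ee_pos k
  have := sq_nonneg ‖p 1‖
  unfold Th
  split_ifs with h
  · refine le_trans ?_ (le_max_right _ _)
    unfold X2
    split_ifs
    · exact (gG_ge p).trans (le_max_left _ _)
    · exact gG_ge p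
  · have h' : rho k / 4 < fT k p := by have := rho_pos k; linarith
    unfold X1
    rw [if_pos h']
    refine le_trans ?_ (le_max_right _ _)
    unfold c1; linarith

lemma Th_outer {k : ℕ} {p : E3} (ht : fT k p < rho k) (ht' : 7 * rho k / 8 ≤ fT k p) :
    Th k p = c1 p := by
  have h1 := rho_pos k
  have h2 := hh_outer ht ht'
  unfold Th X1
  rw [if_neg (by linarith), if_pos (by linarith), max_eq_right]
  unfold c1 c2; linarith

lemma Th_tub {k : ℕ} {p : E3} (hp : p ∈ Om0) (ht : p ∈ Tub k) : Th k p = vv k := by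
  have h1 := rho_pos k
  have h2 := sg_lt k
  have h3 : c2 k p ≤ vv k := by
    have e1 := hh_tube ht.1.le
    have e2 := (abs_le.1 (A_close hp (ht.2.le.trans (ss_lt k).le))).2
    have e3 := ee_le k
    have e4 : ‖p 1‖ ^ 2 ≤ 1 := by
      have := hp.2.1
      nlinarith [norm_nonneg (p 1)]
    unfold c2 vv
    linarith
  have h4 := gG_at_ss hp ht.2.le
  unfold Th
  rw [if_pos (by linarith [ht.1]), X1, if_neg (by linarith [ht.1]), X2,
    if_pos (ht.2.trans (ss_lt k)), max_eq_right h4, max_eq_right h3]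

lemma phi_Om0 {p : E3} (hp : p ∈ Om0) : phi p = ph0 p := by
  by_cases hex : ∃ k, p ∈ Tub k
  · obtain ⟨k, hk⟩ := hex
    rw [phi_tub hk, ph0_slab (Tub_slab hk), Th_tub hp hk, max_eq_right (bB_le_vv hp)]
  · unfold phi
    rw [dif_neg hex]

/-! ### lower bounds by the candidates -/

lemma L1 {p : E3} : bB p ≤ ph0 p := by
  unfold ph0; split_ifs <;> exact le_max_left _ _

lemma X1_ge {k : ℕ} {p : E3} (ht : fT k p < rho k) : X1 k p ≤ ph0 p := by
  rw [ph0_slab ht]
  refine le_trans ?_ (le_max_right _ _)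
  unfold Th
  split_ifs
  · exact le_max_left _ _
  · exact le_rfl

lemma X2_ge {k : ℕ} {p : E3} (ht : fT k p < rho k / 2) : X2 k p ≤ ph0 p := by
  rw [ph0_slab (k := k) (by have := rho_pos k; linarith)]
  refine le_trans ?_ (le_max_right _ _)
  unfold Th
  rw [if_pos ht]
  exact le_max_right _ _

lemma L2 {k : ℕ} {p : E3} (ht : fT k p < rho k) : c2 k p ≤ ph0 p := by
  refine le_trans ?_ (X1_ge ht)
  unfold X1
  split_ifs
  · exact le_max_left _ _
  · exact le_rfl

lemma L3 {k : ℕ} {p : E3} (ht : fT k p < rho k / 2) : gG k p ≤ ph0 p := by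
  refine le_trans ?_ (X2_ge ht)
  unfold X2
  split_ifs
  · exact le_max_left _ _
  · exact le_rfl

lemma L4 {k : ℕ} {p : E3} (ht : fT k p < rho k / 2) (hf : ‖fF k p‖ < rr k) : vv k ≤ ph0 p := by
  refine le_trans ?_ (X2_ge ht)
  unfold X2
  rw [if_pos hf]
  exact le_max_right _ _

lemma L5 {k : ℕ} {p : E3} (ht : fT k p < rho k) (ht' : rho k / 4 < fT k p) : c1 p ≤ ph0 p := by
  refine le_trans ?_ (X1_ge ht)
  unfold X1
  rw [if_pos ht']
  exact le_max_right _ _

lemma L6 {p : E3} (h : ∀ k, rho k / 4 < fT k p) : c1 p ≤ ph0 p := by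
  by_cases hex : ∃ k, fT k p < rho k
  · obtain ⟨k, hk⟩ := hex
    exact L5 hk (h k)
  · push Not at hex
    rw [ph0_out hex]
    exact le_max_right _ _

/-- which values `ph0` takes in a slab -/
lemma ph0_cases {k : ℕ} {p : E3} (ht : fT k p < rho k) :
    ph0 p = bB p ∨ ph0 p = c2 k p ∨ (rho k / 4 < fT k p ∧ ph0 p = c1 p) ∨
    (fT k p < rho k / 2 ∧ ph0 p = gG k p) ∨
    (fT k p < rho k / 2 ∧ ‖fF k p‖ < rr k ∧ ph0 p = vv k) := by
  rw [ph0_slab ht]
  rcases max_choice (bB p) (Th k p) with h | h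
  · left; exact h
  right
  rw [h]
  have hX1 : X1 k p = c2 k p ∨ (rho k / 4 < fT k p ∧ X1 k p = c1 p) := by
    unfold X1
    split_ifs with h1
    · rcases max_choice (c2 k p) (c1 p) with h2 | h2
      · left; exact h2
      · right; exact ⟨h1, h2⟩
    · left; rfl
  have hX2 : X2 k p = gG k p ∨ (‖fF k p‖ < rr k ∧ X2 k p = vv k) := by
    unfold X2
    split_ifs with h1
    · rcases max_choice (gG k p) (vv k) with h2 | h2
      · left; exact h2
      · right; exact ⟨h1, h2⟩
    · left; rfl
  unfold Th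
  split_ifs with h3
  · rcases max_choice (X1 k p) (X2 k p) with h4 | h4
    · rw [h4]
      rcases hX1 with h5 | ⟨h5, h6⟩
      · left; exact h5
      · right; left; exact ⟨h5, h6⟩
    · rw [h4]
      rcases hX2 with h5 | ⟨h5, h6⟩
      · right; right; left; exact ⟨h3, h5⟩
      · right; right; right; exact ⟨h3, h5, h6⟩
  · rcases hX1 with h5 | ⟨h5, h6⟩
    · left; exact h5
    · right; left; exact ⟨h5, h6⟩

/-- away from `a = 0` and off the slabs there is a uniform neighbourhood -/
lemma off_slabs {p : E3} (hp1 : p 1 ≠ 0) (h : ∀ k, rho k ≤ fT k p) :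
    ∀ᶠ q in 𝓝 p, ∀ k, 7 * rho k / 8 ≤ fT k q := by
  have hc : 0 < ‖p 1‖ := norm_pos_iff.2 hp1
  have hev : ∀ᶠ q : E3 in 𝓝 p, ‖q 1 - p 1‖ < ‖p 1‖ / 256 := by
    have hcont : Continuous (fun q : E3 => ‖q 1 - p 1‖) := by fun_prop
    apply hcont.continuousAt.eventually_lt_const
    simpa using hc
  filter_upwards [hev] with q hq k
  have e1 : fT k p ≤ fT k q + ‖q 1 - p 1‖ := by
    unfold fT
    have : p 1 - (aa k : ℂ) = (q 1 - aa k) - (q 1 - p 1) := by ring
    rw [this]
    exact norm_sub_le _ _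
  have e2 : ‖p 1‖ ≤ fT k q + ‖q 1 - p 1‖ + aa k := by
    unfold fT
    have : p 1 = (q 1 - aa k) - (q 1 - p 1) + aa k := by ring
    have h3 : ‖(aa k : ℂ)‖ = aa k := by
      rw [Complex.norm_real, Real.norm_of_nonneg (aa_pos k).le]
    calc ‖p 1‖ = ‖(q 1 - aa k) - (q 1 - p 1) + aa k‖ := by rw [← this]
      _ ≤ ‖(q 1 - aa k) - (q 1 - p 1)‖ + ‖(aa k : ℂ)‖ := norm_add_le _ _
      _ ≤ _ := by rw [h3]; linarith [norm_sub_le (q 1 - aa k) (q 1 - p 1)]
  have e3 := h k
  have hr : rho k = aa k / 8 := rfl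
  have ha := aa_pos k
  rcases le_or_gt (aa k) (‖p 1‖ / 2) with h4 | h4
  · rw [hr]; linarith
  · rw [hr] at e3 ⊢; linarith

/-! ### continuity -/

/-- gluing lemma -/
lemma glue_max {S : Set E3} {X c : E3 → ℝ} {κ : E3 → ℝ} {τ : ℝ} (hS : IsOpen S)
    (hX : ContinuousOn X S) (hc : ContinuousOn c S) (hκ : Continuous κ)
    (hle : ∀ p ∈ S, κ p = τ → c p ≤ X p) :
    ContinuousOn (fun p => if κ p < τ then max (X p) (c p) else X p) S := by
  intro p hp
  have hXa := hX.continuousAt (hS.mem_nhds hp)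
  have hca := hc.continuousAt (hS.mem_nhds hp)
  have hmx : ContinuousAt (fun q => max (X q) (c q)) p := hXa.max hca
  apply ContinuousAt.continuousWithinAt
  rcases lt_trichotomy (κ p) τ with h | h | h
  · have hev : ∀ᶠ q in 𝓝 p, κ q < τ := hκ.continuousAt.eventually_lt_const h
    refine hmx.congr ?_
    filter_upwards [hev] with q hq
    rw [if_pos hq]
  · -- boundary
    have hval : (if κ p < τ then max (X p) (c p) else X p) = X p := by rw [if_neg (by linarith)]
    rw [ContinuousAt, hval]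
    -- squeeze between X and max X c
    have h1 : Tendsto X (𝓝 p) (𝓝 (X p)) := hXa
    have h2 : Tendsto (fun q => max (X q) (c q)) (𝓝 p) (𝓝 (X p)) := by
      have : Tendsto (fun q => max (X q) (c q)) (𝓝 p) (𝓝 (max (X p) (c p))) := hmx
      rwa [max_eq_left (hle p hp h)] at this
    refine tendsto_of_tendsto_of_tendsto_of_le_of_le h1 h2 (fun q => ?_) (fun q => ?_)
    · show X q ≤ if κ q < τ then max (X q) (c q) else X q
      split_ifs
      · exact le_max_left _ _
      · exact le_rfl
    · show (if κ q < τ then max (X q) (c q) else X q) ≤ max (X q) (c q)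
      split_ifs
      · exact le_rfl
      · exact le_max_left _ _
  · have hev : ∀ᶠ q in 𝓝 p, τ < κ q := hκ.continuousAt.eventually_const_lt h
    refine hXa.congr ?_
    filter_upwards [hev] with q hq
    rw [if_neg (by linarith)]

lemma cont_X1 (k : ℕ) : ContinuousOn (X1 k) Om0 := by
  have h := glue_max (S := Om0) (X := c2 k) (c := c1) (κ := fun p => - fT k p)
    (τ := -(rho k / 4)) isOpen_Om0 (cont_c2 k).continuousOn cont_c1.continuousOn
    (cont_fT k).neg (fun p _ hp => by
      have hp' : fT k p = rho k / 4 := by linarith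
      have := hh_ring (k := k) (t := fT k p) (by have := rho_pos k; linarith) hp'.ge
      unfold c1 c2; linarith)
  refine h.congr (fun p _ => ?_)
  unfold X1
  simp only [neg_lt_neg_iff]

lemma cont_X2 (k : ℕ) : ContinuousOn (X2 k) Om0 := by
  have h := glue_max (S := Om0) (X := gG k) (c := fun _ => vv k) (κ := fun p => ‖fF k p‖)
    (τ := rr k) isOpen_Om0 (cont_gG k).continuousOn continuousOn_const
    (cont_fF k).norm (fun p hp hp' => gG_at_rr hp hp')
  exact h

lemma cont_Th (k : ℕ) : ContinuousOn (Th k) Om0 := by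
  have h := glue_max (S := Om0) (X := X1 k) (c := X2 k) (κ := fT k)
    (τ := rho k / 2) isOpen_Om0 (cont_X1 k) (cont_X2 k)
    (cont_fT k) (fun p hp hp' => by
      have h1 := rho_pos k
      have h2 := hh_ring (k := k) (t := fT k p) hp'.le (by linarith)
      have h3 := X2_le (k := k) hp
      have h4 : c2 k p ≤ X1 k p := by
        unfold X1
        split_ifs
        · exact le_max_left _ _
        · exact le_rfl
      have h5 : fA p ≤ c2 k p := by
        unfold c2
        have := sq_nonneg ‖p 1‖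
        linarith
      linarith)
  exact h

lemma slab_norm {k : ℕ} {q : E3} (h : fT k q < rho k) : aa k / 2 < ‖q 1‖ := by
  have h3 : ‖(aa k : ℂ)‖ = aa k := by
    rw [Complex.norm_real, Real.norm_of_nonneg (aa_pos k).le]
  have h4 := norm_sub_norm_le (aa k : ℂ) (q 1)
  rw [h3, norm_sub_rev] at h4
  have : rho k = aa k / 8 := rfl
  have := aa_pos k
  unfold fT at h
  linarith

lemma cont_ph0 : ContinuousOn ph0 Om0 := by
  intro p hp
  apply ContinuousAt.continuousWithinAt
  have hOm : Om0 ∈ 𝓝 p := isOpen_Om0.mem_nhds hp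
  by_cases hex : ∃ k, fT k p < rho k
  · obtain ⟨k, hk⟩ := hex
    have hev : ∀ᶠ q in 𝓝 p, fT k q < rho k := (cont_fT k).continuousAt.eventually_lt_const hk
    have hmx : ContinuousAt (fun q => max (bB q) (Th k q)) p :=
      cont_bB.continuousAt.max ((cont_Th k).continuousAt hOm)
    refine hmx.congr ?_
    filter_upwards [hev] with q hq
    exact (ph0_slab hq).symm
  · push Not at hex
    by_cases hp1 : p 1 = 0
    · -- squeeze
      have hm : ContinuousAt (fun q => max (bB q) (c1 q)) p :=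
        (cont_bB.max cont_c1).continuousAt
      have hval : ph0 p = max (bB p) (c1 p) := ph0_out hex
      rw [Metric.continuousAt_iff'] at hm ⊢
      intro ε hε
      have hm' := hm (ε / 2) (half_pos hε)
      -- choose K
      obtain ⟨K, hK⟩ : ∃ K, 128 * ee K < ε / 4 := by
        have h1 : Tendsto (fun k => 128 * ee k) atTop (𝓝 (128 * 0)) :=
          ee_tendsto.const_mul _
        rw [mul_zero] at h1
        exact (h1.eventually_lt_const (by positivity : (0:ℝ) < ε / 4)).exists
      have hsmall : ∀ᶠ q : E3 in 𝓝 p, ‖q 1‖ < min (aa K / 2) (min 1 (ε / 8)) := by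
        have hcont : Continuous (fun q : E3 => ‖q 1‖) := by fun_prop
        apply hcont.continuousAt.eventually_lt_const
        simp only [hp1, norm_zero]
        have := aa_pos K
        positivity
      filter_upwards [hm', hsmall, hOm] with q hq1 hq2 hqO
      rw [hval]
      by_cases hexq : ∃ k, fT k q < rho k
      · obtain ⟨k, hk⟩ := hexq
        have h1 := slab_norm hk
        have h2 : ‖q 1‖ < aa K / 2 := lt_of_lt_of_le hq2 (min_le_left _ _)
        have h2' : ‖q 1‖ < 1 := lt_of_lt_of_le hq2 ((min_le_right _ _).trans (min_le_left _ _))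
        have h2'' : ‖q 1‖ < ε / 8 :=
          lt_of_lt_of_le hq2 ((min_le_right _ _).trans (min_le_right _ _))
        have h3 : K ≤ k := by
          by_contra hlt
          push Not at hlt
          have := aa_half hlt
          have := aa_pos K
          linarith
        have h4 := ee_anti h3
        have h5 := Th_ge (k := k) (p := q)
        have h6 := Th_le hqO hk
        rw [ph0_slab hk]
        have hn := norm_nonneg (q 1)
        have h7 : ‖q 1‖ ^ 2 ≤ ‖q 1‖ := by nlinarith
        have h8 : rho k ^ 2 / 2 ≤ ‖q 1‖ := by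
          have e1 : rho k = aa k / 8 := rfl
          have e2 := rho_le k
          have e3 := rho_pos k
          nlinarith
        have h9 : |Th k q - c1 q| < ε / 2 := by
          rw [abs_lt]
          unfold c1
          constructor <;> linarith
        have h10 : |max (bB q) (Th k q) - max (bB q) (c1 q)| < ε / 2 := by
          refine lt_of_le_of_lt ?_ h9
          have := abs_max_sub_max_le_abs (Th k q) (c1 q) (bB q)
          rwa [max_comm (Th k q), max_comm (c1 q)] at this
        rw [Real.dist_eq] at hq1 ⊢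
        have e : max (bB q) (Th k q) - max (bB p) (c1 p)
          = (max (bB q) (Th k q) - max (bB q) (c1 q)) + (max (bB q) (c1 q) - max (bB p) (c1 p)) := by
          ring
        rw [e]
        refine lt_of_le_of_lt (abs_add_le _ _) ?_
        linarith
      · push Not at hexq
        rw [ph0_out hexq]
        linarith
    · -- p 1 ≠ 0
      refine ((cont_bB.max cont_c1).continuousAt).congr ?_
      filter_upwards [off_slabs hp1 hex] with q hq
      by_cases hexq : ∃ k, fT k q < rho k
      · obtain ⟨k, hk⟩ := hexq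
        rw [ph0_slab hk, Th_outer hk (hq k)]
      · push Not at hexq
        rw [ph0_out hexq]

lemma cont_phi : ContinuousOn phi Om := by
  intro p hp
  apply ContinuousAt.continuousWithinAt
  rcases hp with hp | hp
  · refine (cont_ph0.continuousAt (isOpen_Om0.mem_nhds hp)).congr ?_
    filter_upwards [isOpen_Om0.mem_nhds hp] with q hq
    exact (phi_Om0 hq).symm
  · rw [mem_iUnion] at hp
    obtain ⟨k, hk⟩ := hp
    refine (continuousAt_const (y := vv k)).congr ?_
    filter_upwards [(isOpen_Tub k).mem_nhds hk] with q hq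
    exact (phi_tub hq).symm

/-! ### local sub-mean property -/

/-- local candidates away from `a = 0` -/
lemma candidates {p : E3} (hp : p ∈ Om0) (hp1 : p 1 ≠ 0) :
    ∃ c : E3 → ℝ, PL c p ∧ c p = phi p ∧ ∀ᶠ q in 𝓝 p, c q ≤ phi q := by
  have hO := isOpen_Om0.mem_nhds hp
  rw [phi_Om0 hp]
  have hred : ∀ c : E3 → ℝ, (∀ᶠ q in 𝓝 p, c q ≤ ph0 q) → ∀ᶠ q in 𝓝 p, c q ≤ phi q := by
    intro c hc
    filter_upwards [hc, hO] with q hq hq'
    rw [phi_Om0 hq']; exact hq
  by_cases hex : ∃ k, fT k p < rho k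
  · obtain ⟨k, hk⟩ := hex
    have hk' : ∀ᶠ q in 𝓝 p, fT k q < rho k := (cont_fT k).continuousAt.eventually_lt_const hk
    rcases ph0_cases hk with h | h | ⟨h1, h⟩ | ⟨h1, h⟩ | ⟨h1, h2, h⟩
    · exact ⟨bB, PL_bB p, h.symm, hred _ (Eventually.of_forall fun q => L1)⟩
    · refine ⟨c2 k, PL_c2 k p, h.symm, hred _ ?_⟩
      filter_upwards [hk'] with q hq
      exact L2 hq
    · refine ⟨c1, PL_c1 p, h.symm, hred _ ?_⟩
      have h1' : ∀ᶠ q in 𝓝 p, rho k / 4 < fT k q :=
        (cont_fT k).continuousAt.eventually_const_lt h1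
      filter_upwards [hk', h1'] with q hq hq'
      exact L5 hq hq'
    · refine ⟨gG k, PL_gG k p, h.symm, hred _ ?_⟩
      have h1' : ∀ᶠ q in 𝓝 p, fT k q < rho k / 2 :=
        (cont_fT k).continuousAt.eventually_lt_const h1
      filter_upwards [h1'] with q hq
      exact L3 hq
    · refine ⟨fun _ => vv k, PL_const _ p, h.symm, hred _ ?_⟩
      have h1' : ∀ᶠ q in 𝓝 p, fT k q < rho k / 2 :=
        (cont_fT k).continuousAt.eventually_lt_const h1
      have h2' : ∀ᶠ q in 𝓝 p, ‖fF k q‖ < rr k :=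
        (cont_fF k).norm.continuousAt.eventually_lt_const h2
      filter_upwards [h1', h2'] with q hq hq'
      exact L4 hq hq'
  · push Not at hex
    rw [ph0_out hex]
    rcases max_choice (bB p) (c1 p) with h | h
    · exact ⟨bB, PL_bB p, h.symm, hred _ (Eventually.of_forall fun q => L1)⟩
    · refine ⟨c1, PL_c1 p, h.symm, hred _ ?_⟩
      filter_upwards [off_slabs hp1 hex] with q hq
      apply L6
      intro k
      have := hq k
      have := rho_pos k
      linarith

lemma cont_line (p v : E3) : Continuous (fun l : ℂ => p + l • v) := by fun_prop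

lemma cont_phi_line {p v : E3} {l : ℂ} (h : p + l • v ∈ Om) :
    ContinuousAt (fun l : ℂ => phi (p + l • v)) l :=
  ContinuousAt.comp (f := fun l : ℂ => p + l • v) (g := phi)
    (cont_phi.continuousAt (isOpen_Om.mem_nhds h)) (cont_line p v).continuousAt

lemma SMat_of_cand {p : E3} (hp : p ∈ Om)
    (hc : ∃ c : E3 → ℝ, PL c p ∧ c p = phi p ∧ ∀ᶠ q in 𝓝 p, c q ≤ phi q) : PL phi p := by
  obtain ⟨c, h1, h2, h3⟩ := hc
  intro v
  have hl : Tendsto (fun l : ℂ => p + l • v) (𝓝 0) (𝓝 p) := by
    have := (cont_line p v).tendsto 0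
    simpa using this
  refine (h1 v).minorant (by simpa using h2) (hl.eventually h3) ?_
  have hO : ∀ᶠ l in 𝓝 (0:ℂ), p + l • v ∈ Om := hl.eventually (isOpen_Om.mem_nhds hp)
  filter_upwards [hO] with l hlO
  exact cont_phi_line hlO

lemma SMat_translate {u : ℂ → ℝ} {c : ℂ} (h : SMat (fun l => u (c + l)) 0) : SMat u c := by
  obtain ⟨r0, h0, hc, hs⟩ := h
  refine ⟨r0, h0, ?_, fun r hr hr' => ?_⟩
  · have : ContinuousOn ((fun l => u (c + l)) ∘ (fun z => z - c)) (ball c r0) := by
      refine hc.comp (by fun_prop) (fun z hz => ?_)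
      rw [mem_ball, dist_eq_norm] at hz ⊢
      simpa using hz
    refine this.congr (fun z _ => ?_)
    simp
  · have := hs r hr hr'
    simp only [add_zero] at this
    have e := circleAverage_map_add_const (f := u) (c := c) (R := r)
    rw [← e]
    simpa [add_comm] using this

lemma PL_shift {p v : E3} {c : ℂ} (h : PL phi (p + c • v)) : SMat (fun l : ℂ => phi (p + l • v)) c := by
  apply SMat_translate
  have := h v
  refine this.congr (Eventually.of_forall fun z => ?_)
  show phi (p + c • v + z • v) = phi (p + (c + z) • v)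
  rw [add_smul, add_assoc]

lemma PL_tub {k : ℕ} {p : E3} (hp : p ∈ Tub k) : PL phi p := by
  apply SMat_of_cand (Or.inr (mem_iUnion.2 ⟨k, hp⟩))
  refine ⟨fun _ => vv k, PL_const _ p, (phi_tub hp).symm, ?_⟩
  filter_upwards [(isOpen_Tub k).mem_nhds hp] with q hq
  rw [phi_tub hq]

lemma PL_ne {p : E3} (hp : p ∈ Om0) (hp1 : p 1 ≠ 0) : PL phi p :=
  SMat_of_cand (Or.inl hp) (candidates hp hp1)

lemma zero_off {p : E3} (h : p 1 = 0) (k : ℕ) : rho k ≤ fT k p := by
  unfold fT
  rw [h, zero_sub, norm_neg, Complex.norm_real, Real.norm_of_nonneg (aa_pos k).le]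
  have := aa_pos k
  unfold rho; linarith

lemma PL_zero {p : E3} (hp : p ∈ Om0) (hp1 : p 1 = 0) : PL phi p := by
  intro v
  have hl : Tendsto (fun l : ℂ => p + l • v) (𝓝 0) (𝓝 p) := by
    have := (cont_line p v).tendsto 0
    simpa using this
  by_cases hv : v 1 = 0
  · have h1 : SMat (fun l : ℂ => Max.max (bB (p + l • v)) (c1 (p + l • v))) 0 := by
      apply SMat.max (PL_bB p v) (PL_c1 p v)
      · exact Eventually.of_forall fun z => (cont_bB.comp (cont_line p v)).continuousAt
      · exact Eventually.of_forall fun z => (cont_c1.comp (cont_line p v)).continuousAt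
    refine h1.congr ?_
    filter_upwards [hl.eventually (isOpen_Om0.mem_nhds hp)] with z hz
    rw [phi_Om0 hz, ph0_out (zero_off (by rw [coord_line, hp1, hv]; simp))]
  · obtain ⟨r0, h0, hball⟩ := Metric.eventually_nhds_iff_ball.1
      (hl.eventually (isOpen_Om0.mem_nhds hp))
    have hcont : ContinuousOn (fun l : ℂ => phi (p + l • v)) (ball 0 r0) := fun z hz =>
      (cont_phi_line (Or.inl (hball z hz))).continuousWithinAt
    refine ⟨r0, h0, hcont, fun r hr hr' => ?_⟩
    refine local_global hr (hcont.mono (closedBall_subset_ball hr')) (fun c hc hc0 => ?_)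
    have hcb : c ∈ ball (0:ℂ) r0 := ball_subset_ball hr'.le hc
    apply PL_shift
    apply PL_ne (hball c hcb)
    rw [coord_line, hp1, zero_add]
    exact mul_ne_zero hc0 hv

lemma PL_phi {p : E3} (hp : p ∈ Om) : PL phi p := by
  rcases hp with hp | hp
  · by_cases h : p 1 = 0
    · exact PL_zero hp h
    · exact PL_ne hp h
  · rw [mem_iUnion] at hp
    obtain ⟨k, hk⟩ := hp
    exact PL_tub hk

theorem phi_submean {p v : E3} (h : ∀ l : ℂ, ‖l‖ ≤ 1 → p + l • v ∈ Om) :
    phi p ≤ circleAverage (fun l : ℂ => phi (p + l • v)) 0 1 := by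
  have := local_global (u := fun l : ℂ => phi (p + l • v)) one_pos ?_ ?_
  · simpa using this
  · intro z hz
    have hz' : ‖z‖ ≤ 1 := by simpa using hz
    exact (cont_phi_line (h z hz')).continuousWithinAt
  · intro c hc _
    have hc' : ‖c‖ ≤ 1 := by
      have : ‖c‖ < 1 := by simpa using hc
      exact this.le
    exact PL_shift (PL_phi (h c hc'))

lemma phi_bdd {p : E3} (hp : p ∈ Om) : phi p ≤ 20 := by
  rcases hp with hp | hp
  · rw [phi_Om0 hp]
    have hA : fA p ≤ 15 := by
      unfold fA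
      have h1 : ‖p 0 - 3 / 4‖ ≤ 15 / 4 := by
        refine (norm_sub_le _ _).trans ?_
        have : ‖(3 / 4 : ℂ)‖ = 3 / 4 := by norm_num
        have := hp.1
        linarith
      nlinarith [norm_nonneg (p 0 - 3 / 4)]
    have h1 : ‖p 1‖ ^ 2 ≤ 1 := by
      have := hp.2.1
      nlinarith [norm_nonneg (p 1)]
    have hB : bB p ≤ 20 := by
      have := bB_le_vv (k := 0) hp
      have h2 : vv 0 ≤ 20 := by
        unfold vv
        have e1 : ‖xx 0 - 3 / 4‖ ≤ 11 / 4 := by
          refine (norm_sub_le _ _).trans ?_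
          have : ‖(3 / 4 : ℂ)‖ = 3 / 4 := by norm_num
          have := norm_xx 0
          linarith
        have := ee_pos 0
        nlinarith [norm_nonneg (xx 0 - 3 / 4)]
      linarith
    by_cases hex : ∃ k, fT k p < rho k
    · obtain ⟨k, hk⟩ := hex
      rw [ph0_slab hk]
      have := Th_le hp hk
      have e1 := rho_pos k
      have e2 := rho_le k
      apply max_le hB
      nlinarith
    · push Not at hex
      rw [ph0_out hex]
      apply max_le hB
      unfold c1; linarith
  · rw [mem_iUnion] at hp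
    obtain ⟨k, hk⟩ := hp
    rw [phi_tub hk]
    unfold vv
    have e1 : ‖xx k - 3 / 4‖ ≤ 11 / 4 := by
      refine (norm_sub_le _ _).trans ?_
      have : ‖(3 / 4 : ℂ)‖ = 3 / 4 := by norm_num
      have := norm_xx k
      linarith
    have := ee_pos k
    nlinarith [norm_nonneg (xx k - 3 / 4)]

/-- the small neighbourhood of the special point -/
def Us : Set E3 := {p | ‖p 0 - 3 / 4‖ < 1 / 10 ∧ ‖p 1‖ < 1 / 10 ∧ ‖p 2‖ < 1 / 10}

lemma Us_sub : Us ⊆ Om0 := by
  rintro p ⟨h0, h1, h2⟩
  refine ⟨?_, by linarith, by linarith⟩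
  have : ‖p 0‖ ≤ ‖p 0 - 3 / 4‖ + ‖(3 / 4 : ℂ)‖ := by
    have := norm_add_le (p 0 - 3 / 4) (3 / 4 : ℂ)
    simpa using this
  have h3 : ‖(3 / 4 : ℂ)‖ = 3 / 4 := by norm_num
  linarith

lemma phi_Us {p : E3} (hp : p ∈ Us) : phi p = bB p := by
  have hO := Us_sub hp
  obtain ⟨h0, h1, h2⟩ := hp
  have hA : fA p ≤ 1 / 100 := by unfold fA; nlinarith [norm_nonneg (p 0 - 3 / 4)]
  have h1' : ‖p 1‖ ^ 2 ≤ 1 / 100 := by nlinarith [norm_nonneg (p 1)]
  have hB : 1 / 32 ≤ bB p := by unfold bB; have := sq_nonneg ‖p‖; linarith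
  rw [phi_Om0 hO]
  by_cases hex : ∃ k, fT k p < rho k
  · obtain ⟨k, hk⟩ := hex
    rw [ph0_slab hk, max_eq_left]
    have := Th_le hO hk
    have e1 := rho_pos k
    have e2 := rho_le k
    nlinarith
  · push Not at hex
    rw [ph0_out hex, max_eq_left]
    unfold c1; linarith

end

end U500Core
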