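import Pool.Agent.U500.CoreS.OneD

/-! Local-to-global sub-mean inequality with a removable centre. -/

namespace U500Core

open Metric Real Set Filter Topology

/-- mean value property on all circles -/
def MVP (F : ℂ → ℂ) : Prop := Continuous F ∧ ∀ c r, circleAverage F c r = F c

lemma MVP.add {F G : ℂ → ℂ} (hF : MVP F) (hG : MVP G) : MVP (fun z => F z + G z) :=
  ⟨hF.1.add hG.1, fun c r => by
    rw [circleAverage_fun_add (hF.1.continuousOn.circleIntegrable')
      (hG.1.continuousOn.circleIntegrable'), hF.2, hG.2]⟩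

lemma MVP.smul {F : ℂ → ℂ} (a : ℂ) (hF : MVP F) : MVP (fun z => a * F z) :=
  ⟨continuous_const.mul hF.1, fun c r => by
    have := circleAverage_fun_smul (f := F) (a := a) (c := c) (R := r)
    simp only [smul_eq_mul] at this
    rw [this, hF.2]⟩

lemma MVP_of_diff {F : ℂ → ℂ} (hF : Differentiable ℂ F) : MVP F :=
  ⟨hF.continuous, fun _ _ => hF.diffContOnCl.circleAverage⟩

lemma MVP.conj {F : ℂ → ℂ} (hF : MVP F) : MVP (fun z => (starRingEnd ℂ) (F z)) :=
  ⟨Complex.continuous_conj.comp hF.1, fun c r => by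
    have h := ContinuousLinearMap.circleAverage_comp_comm (c := c) (R := r)
      (Complex.conjCLE : ℂ →L[ℝ] ℂ) (f := F) (hF.1.continuousOn.circleIntegrable')
    rw [hF.2] at h
    exact h⟩

lemma MVP.re {F : ℂ → ℂ} (hF : MVP F) (c : ℂ) (r : ℝ) :
    circleAverage (fun z => (F z).re) c r = (F c).re := by
  have h := ContinuousLinearMap.circleAverage_comp_comm (c := c) (R := r)
      Complex.reCLM (f := F) (hF.1.continuousOn.circleIntegrable')
  rw [hF.2] at h
  exact h

lemma exists_MVP_span {R : ℝ} (hR : 0 < R) (f : C(AddCircle (2 * π), ℂ))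
    (hf : f ∈ Submodule.span ℂ (range (@fourier (2 * π)))) :
    ∃ F : ℂ → ℂ, MVP F ∧ ∀ θ : ℝ, F (circleMap 0 R θ) = f (θ : AddCircle (2 * π)) := by
  induction hf using Submodule.span_induction with
  | mem x hx =>
    obtain ⟨n, rfl⟩ := hx
    have hRc : (R : ℂ) ≠ 0 := by exact_mod_cast hR.ne'
    rcases le_total 0 n with hn | hn
    · obtain ⟨m, rfl⟩ := Int.eq_ofNat_of_zero_le hn
      refine ⟨fun z => (z / R) ^ m, MVP_of_diff (by fun_prop), fun θ => ?_⟩
      rw [fourier_coe_apply]
      simp only [circleMap, zero_add]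
      rw [mul_div_cancel_left₀ _ hRc, ← Complex.exp_nat_mul]
      congr 1
      push_cast
      have : (π : ℂ) ≠ 0 := by exact_mod_cast Real.pi_ne_zero
      field_simp
    · obtain ⟨m, hm⟩ := Int.eq_ofNat_of_zero_le (neg_nonneg.2 hn)
      have hn' : n = -(m : ℤ) := by omega
      refine ⟨fun z => (starRingEnd ℂ) ((z / R) ^ m), (MVP_of_diff (by fun_prop)).conj,
        fun θ => ?_⟩
      rw [fourier_coe_apply, hn']
      simp only [circleMap, zero_add]
      rw [mul_div_cancel_left₀ _ hRc, ← Complex.exp_nat_mul, ← Complex.exp_conj]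
      congr 1
      simp only [map_mul, map_natCast, Complex.conj_ofReal, Complex.conj_I]
      push_cast
      have : (π : ℂ) ≠ 0 := by exact_mod_cast Real.pi_ne_zero
      field_simp
  | zero => exact ⟨fun _ => 0, ⟨continuous_const, fun c r => circleAverage_const _ _ _⟩,
      fun θ => by simp⟩
  | add x y _ _ hx hy =>
    obtain ⟨F, hF, hF'⟩ := hx
    obtain ⟨G, hG, hG'⟩ := hy
    exact ⟨_, hF.add hG, fun θ => by simp [hF', hG']⟩
  | smul a x _ hx =>
    obtain ⟨F, hF, hF'⟩ := hx
    exact ⟨_, hF.smul a, fun θ => by simp [hF']⟩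

lemma approx_harm {u : ℂ → ℝ} {R : ℝ} (hR : 0 < R) (hc : ContinuousOn u (sphere 0 R))
    {ε : ℝ} (hε : 0 < ε) :
    ∃ h : ℂ → ℝ, Continuous h ∧ (∀ c r, circleAverage h c r = h c) ∧
      ∀ z ∈ sphere (0:ℂ) R, |u z - h z| ≤ ε := by
  have : Fact (0 < 2 * π) := ⟨two_pi_pos⟩
  set g : ℝ → ℂ := fun θ => (u (circleMap 0 R θ) : ℂ) with hg
  have hper : Function.Periodic g (2 * π) := fun θ => by
    simp only [hg]
    rw [periodic_circleMap 0 R θ]
  have hgc : Continuous g := by
    refine Complex.continuous_ofReal.comp ?_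
    refine hc.comp_continuous (continuous_circleMap 0 R) (fun θ => ?_)
    exact circleMap_mem_sphere 0 hR.le θ
  have hlc : Continuous (hper.lift : AddCircle (2 * π) → ℂ) :=
    continuous_coinduced_dom.2 hgc
  let G : C(AddCircle (2 * π), ℂ) := ⟨hper.lift, hlc⟩
  have hmem : G ∈ (Submodule.span ℂ (range (@fourier (2 * π)))).topologicalClosure := by
    rw [span_fourier_closure_eq_top]; trivial
  rw [← SetLike.mem_coe, Submodule.topologicalClosure_coe, Metric.mem_closure_iff] at hmem
  obtain ⟨f, hf, hfG⟩ := hmem ε hε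
  obtain ⟨F, hF, hFf⟩ := exists_MVP_span hR f hf
  refine ⟨fun z => (F z).re, Complex.continuous_re.comp hF.1, fun c r => hF.re c r,
    fun z hz => ?_⟩
  rw [← abs_of_pos hR, ← image_circleMap_Ioc] at hz
  obtain ⟨θ, _, rfl⟩ := hz
  have h1 : dist (G (θ : AddCircle (2*π))) (f (θ : AddCircle (2*π))) < ε :=
    lt_of_le_of_lt (ContinuousMap.dist_apply_le_dist _) hfG
  have h2 : G (θ : AddCircle (2*π)) = g θ := rfl
  rw [h2, ← hFf, Complex.dist_eq] at h1
  have h3 : u (circleMap 0 R θ) - (F (circleMap 0 R θ)).re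
      = (g θ - F (circleMap 0 R θ)).re := by simp [hg]
  rw [h3]
  exact (Complex.abs_re_le_norm _).trans h1.le

/-- local sub-mean inequality (except possibly at the centre) implies the global one -/
theorem local_global {u : ℂ → ℝ} {R : ℝ} (hR : 0 < R) (hc : ContinuousOn u (closedBall 0 R))
    (hs : ∀ c ∈ ball (0:ℂ) R, c ≠ 0 → SMat u c) : u 0 ≤ circleAverage u 0 R := by
  apply le_of_forall_pos_le_add
  intro ε hε
  obtain ⟨h, hh, hmv, happ⟩ := approx_harm hR (hc.mono sphere_subset_closedBall)
    (half_pos hε)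
  -- claim: u z - h z ≤ ε/2 for z ≠ 0 in the ball
  have hclaim : ∀ z ∈ ball (0:ℂ) R, z ≠ 0 → u z - h z ≤ ε / 2 := by
    intro z hz hz0
    -- bound on compact
    have hcw : ContinuousOn (fun y => u y - h y) (closedBall 0 R) := hc.sub hh.continuousOn
    obtain ⟨C, hC⟩ := (isCompact_closedBall (0:ℂ) R).bddAbove_image hcw
    have hC' : ∀ y ∈ closedBall (0:ℂ) R, u y - h y ≤ C := fun y hy =>
      hC ⟨y, hy, rfl⟩
    have hzR : ‖z‖ < R := by simpa using hz
    have hzpos : 0 < ‖z‖ := norm_pos_iff.2 hz0
    apply le_of_forall_pos_le_add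
    intro e he
    -- η
    obtain ⟨η, hη, hη2⟩ : ∃ η > 0, - (η * Real.log (‖z‖ / R)) ≤ e := by
      have h0 : Real.log (‖z‖ / R) ≤ 0 := Real.log_nonpos (by positivity)
        ((div_le_one hR).2 hzR.le)
      refine ⟨e / (1 - Real.log (‖z‖ / R)), by
        apply div_pos he; linarith, ?_⟩
      rw [← mul_neg, div_mul_eq_mul_div, div_le_iff₀ (by linarith)]
      nlinarith
    -- δ
    obtain ⟨δ, hδ0, hδz, hδ2⟩ : ∃ δ > 0, δ < ‖z‖ ∧ C + η * Real.log (δ / R) ≤ ε / 2 := by
      have ht : Tendsto (fun δ => C + η * Real.log (δ / R)) (𝓝[>] 0) atBot := by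
        apply tendsto_atBot_add_const_left
        apply Tendsto.const_mul_atBot hη
        have h1 : Tendsto (fun δ : ℝ => δ / R) (𝓝[>] 0) (𝓝[>] 0) := by
          apply tendsto_nhdsWithin_of_tendsto_nhds_of_eventually_within
          · have : Tendsto (fun δ : ℝ => δ / R) (𝓝 0) (𝓝 (0 / R)) :=
              (continuous_id.div_const R).tendsto 0
            rw [zero_div] at this
            exact this.mono_left nhdsWithin_le_nhds
          · filter_upwards [self_mem_nhdsWithin] with δ hδ
            exact div_pos hδ hR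
        exact Real.tendsto_log_nhdsGT_zero.comp h1
      have h1 := ht.eventually_le_atBot (ε / 2)
      have h2 : ∀ᶠ δ : ℝ in 𝓝[>] 0, δ < ‖z‖ :=
        (eventually_lt_nhds hzpos).filter_mono nhdsWithin_le_nhds
      obtain ⟨δ, h3, h4, h5⟩ := (h1.and (h2.and self_mem_nhdsWithin)).exists
      exact ⟨δ, h5, h4, h3⟩
    set W : Set ℂ := ball 0 R \ closedBall 0 δ with hWdef
    have hWo : IsOpen W := isOpen_ball.sdiff isClosed_closedBall
    have hWb : Bornology.IsBounded W := isBounded_ball.subset sdiff_subset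
    have hcl : closure W ⊆ closedBall 0 R \ ball 0 δ := by
      apply closure_minimal
      · intro y hy
        exact ⟨ball_subset_closedBall hy.1, fun h => hy.2 (ball_subset_closedBall h)⟩
      · exact isClosed_closedBall.sdiff isOpen_ball
    have hnz : ∀ y ∈ closure W, y ≠ 0 := by
      intro y hy h
      apply (hcl hy).2
      rw [h]; simpa using hδ0
    have hzW : z ∈ W := ⟨hz, by simpa using hδz⟩
    have hres := weak_max hWo hWb
      (u := fun y => (u y + (-1) * h y) + (η * Real.log ‖y‖ + (- η * Real.log R)))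
      (M := ε / 2) ?_ ?_ ?_ z (subset_closure hzW)
    · have hres' : (u z + (-1) * h z) + (η * Real.log ‖z‖ + (- η * Real.log R)) ≤ ε / 2 := hres
      rw [Real.log_div hzpos.ne' hR.ne'] at hη2
      nlinarith
    · refine ContinuousOn.add ?_ ?_
      · refine (hc.mono (hcl.trans sdiff_subset)).add (continuousOn_const.mul hh.continuousOn)
      · refine (continuousOn_const.mul ?_).add continuousOn_const
        exact (continuous_norm.continuousOn).log (fun y hy => by
          rw [norm_ne_zero_iff]; exact hnz y hy)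
    · intro y hy
      have hyn := hnz y (subset_closure hy)
      refine ((hs y hy.1 hyn).add ?_).add ((SMat_log hyn η).add (SMat_const _ y))
      refine ⟨1, one_pos, (continuous_const.mul hh).continuousOn, fun r _ _ => ?_⟩
      have := circleAverage_fun_smul (f := h) (a := (-1:ℝ)) (c := y) (R := r)
      simp only [smul_eq_mul] at this
      rw [this, hmv]
    · intro y hy
      have hy1 := hcl (frontier_subset_closure hy)
      have hyn := hnz y (frontier_subset_closure hy)
      have hy2 : y ∉ W := by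
        rw [hWo.frontier_eq] at hy; exact hy.2
      have hyC := hC' y hy1.1
      simp only [Set.mem_sdiff, mem_closedBall, dist_zero_right, mem_ball, not_lt] at hy1
      simp only [hWdef, Set.mem_sdiff, mem_closedBall, dist_zero_right, mem_ball, not_and,
        not_not] at hy2
      rcases lt_or_ge ‖y‖ R with h' | h'
      · have h3 : ‖y‖ = δ := le_antisymm (hy2 h') hy1.2
        rw [Real.log_div hδ0.ne' hR.ne'] at hδ2
        rw [h3]
        nlinarith
      · have h3 : ‖y‖ = R := le_antisymm hy1.1 h'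
        have h4 := happ y (by simpa using h3)
        rw [h3]
        have := (abs_le.1 h4).2
        linarith
  -- at zero by continuity
  have hz : u 0 - h 0 ≤ ε / 2 := by
    have hcont : ContinuousAt (fun y => u y - h y) 0 :=
      ((hc.continuousAt (closedBall_mem_nhds 0 hR)).sub hh.continuousAt)
    have h1 : Tendsto (fun y => u y - h y) (𝓝[≠] 0) (𝓝 (u 0 - h 0)) :=
      hcont.tendsto.mono_left nhdsWithin_le_nhds
    refine le_of_tendsto h1 ?_
    have h2 : ∀ᶠ y in 𝓝[≠] (0:ℂ), y ∈ ball (0:ℂ) R :=
      mem_nhdsWithin_of_mem_nhds (ball_mem_nhds 0 hR)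
    filter_upwards [h2, self_mem_nhdsWithin] with y hy hy'
    exact hclaim y hy hy'
  have hci : CircleIntegrable u 0 R := by
    apply ContinuousOn.circleIntegrable hR.le
    exact hc.mono sphere_subset_closedBall
  have h5 : circleAverage h 0 R ≤ circleAverage (fun z => u z + ε / 2) 0 R := by
    apply circleAverage_mono
    · exact hh.continuousOn.circleIntegrable'
    · exact hci.add (continuousOn_const.circleIntegrable')
    · intro z hz
      rw [abs_of_pos hR] at hz
      have := (abs_le.1 (happ z hz)).1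
      linarith
  rw [hmv, circleAverage_fun_add hci (continuousOn_const.circleIntegrable'),
    circleAverage_const] at h5
  linarith

end U500Core
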