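import Pool.Agent.U500.CoreS.Seq

/-! Every `C¹` plurisubharmonic function bounded above is constant on the disc. -/

namespace U500Core

open Metric Real Set Filter Topology

noncomputable section

def vc (z a b : ℂ) : E3 := !₂[z, a, b]

@[simp] lemma vc0 (z a b : ℂ) : (vc z a b) 0 = z := rfl
@[simp] lemma vc1 (z a b : ℂ) : (vc z a b) 1 = a := rfl
@[simp] lemma vc2 (z a b : ℂ) : (vc z a b) 2 = b := rfl

lemma vc_add_smul (z a b z' a' b' l : ℂ) :
    vc z a b + l • vc z' a' b' = vc (z + l * z') (a + l * a') (b + l * b') := by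
  ext i; fin_cases i <;> simp [vc]

lemma E3_ext {p q : E3} (h0 : p 0 = q 0) (h1 : p 1 = q 1) (h2 : p 2 = q 2) : p = q := by
  ext i; fin_cases i
  · exact h0
  · exact h1
  · exact h2

lemma dist_vc (z a b z' a' b' : ℂ) :
    dist (vc z a b) (vc z' a' b') ≤ ‖z - z'‖ + ‖a - a'‖ + ‖b - b'‖ := by
  rw [dist_eq_norm]
  have h : vc z a b - vc z' a' b' = vc (z - z') (a - a') (b - b') := by
    apply E3_ext <;> simp
  rw [h]
  have h2 := norm_sq3 (vc (z - z') (a - a') (b - b'))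
  simp only [vc0, vc1, vc2] at h2
  have h3 : ‖vc (z - z') (a - a') (b - b')‖ ^ 2 ≤ (‖z - z'‖ + ‖a - a'‖ + ‖b - b'‖) ^ 2 := by
    rw [h2]
    nlinarith [mul_nonneg (norm_nonneg (z - z')) (norm_nonneg (a - a')),
      mul_nonneg (norm_nonneg (z - z')) (norm_nonneg (b - b')),
      mul_nonneg (norm_nonneg (a - a')) (norm_nonneg (b - b'))]
  exact (pow_le_pow_iff_left₀ (norm_nonneg _) (by positivity) two_ne_zero).1 h3

lemma cont_vc0 : Continuous (fun z : ℂ => vc z 0 0) := by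
  have : Isometry (fun z : ℂ => vc z 0 0) := by
    apply Isometry.of_dist_eq
    intro z z'
    rw [dist_eq_norm, dist_eq_norm]
    have h : vc z 0 0 - vc z' 0 0 = vc (z - z') 0 0 := by
      apply E3_ext <;> simp
    rw [h]
    have h2 := norm_sq3 (vc (z - z') 0 0)
    simp only [vc0, vc1, vc2, norm_zero] at h2
    have h3 : ‖vc (z - z') 0 0‖ ^ 2 = ‖z - z'‖ ^ 2 := by rw [h2]; ring
    exact (pow_left_inj₀ (norm_nonneg _) (norm_nonneg _) two_ne_zero).1 h3
  exact this.continuous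

/-- leaf `k` -/
def PP (k : ℕ) : E3 := vc (xx k + dd k / 2) (aa k) 0
def VV (k : ℕ) : E3 := vc (-(dd k * cc k / 2)) 0 1

lemma leaf_eq (k : ℕ) (l : ℂ) :
    PP k + l • VV k = vc (xx k + dd k * (1 - cc k * l) / 2) (aa k) l := by
  unfold PP VV
  rw [vc_add_smul]
  congr 1 <;> ring

lemma leaf_mem (k : ℕ) (l : ℂ) : PP k + l • VV k ∈ Om := by
  right
  rw [mem_iUnion]
  refine ⟨k, ?_, ?_⟩
  · rw [leaf_eq]
    simp [fT, sg_pos k]
  · rw [leaf_eq]
    simp only [fF, vc0, vc2]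
    have : xx k + dd k * (1 - cc k * l) / 2 - xx k - dd k * (1 - cc k * l) / 2 = 0 := by ring
    rw [this, norm_zero]
    exact ss_pos k

structure Hyp (ψ : E3 → ℝ) : Prop where
  diff : ContDiffOn ℝ 1 ψ Om
  sub : ∀ p v : E3, (∀ l : ℂ, ‖l‖ ≤ 1 → p + l • v ∈ Om) →
    ψ p ≤ circleAverage (fun l : ℂ => ψ (p + l • v)) 0 1
  bdd : ∃ M, ∀ p ∈ Om, ψ p ≤ M

variable {ψ : E3 → ℝ}

lemma Hyp.cont (h : Hyp ψ) {p : E3} (hp : p ∈ Om) : ContinuousAt ψ p :=
  h.diff.continuousOn.continuousAt (isOpen_Om.mem_nhds hp)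

lemma cont_line' (p v : E3) : Continuous (fun l : ℂ => p + l • v) := by fun_prop

lemma Hyp.SM (h : Hyp ψ) {p : E3} (hp : p ∈ Om) (v : E3) :
    SMat (fun l : ℂ => ψ (p + l • v)) 0 := by
  have hl : Tendsto (fun l : ℂ => p + l • v) (𝓝 0) (𝓝 p) := by
    have := (cont_line' p v).tendsto 0
    simpa using this
  obtain ⟨r0, h0, hball⟩ := Metric.eventually_nhds_iff_ball.1
    (hl.eventually (isOpen_Om.mem_nhds hp))
  refine ⟨r0, h0, fun z hz => ?_, fun r hr hr' => ?_⟩
  · apply ContinuousAt.continuousWithinAt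
    exact ContinuousAt.comp (f := fun l : ℂ => p + l • v) (g := ψ)
      (h.cont (hball z hz)) (cont_line' p v).continuousAt
  · rw [circleAverage_eq_circleAverage_zero_one]
    have := h.sub p ((r : ℂ) • v) (fun l hl => by
      rw [smul_smul]
      apply hball
      rw [mem_ball, dist_zero_right, norm_mul, Complex.norm_real, Real.norm_of_nonneg hr.le]
      nlinarith [norm_nonneg l])
    simp only [zero_smul, add_zero]
    refine this.trans (le_of_eq ?_)
    congr 1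
    funext l
    rw [smul_smul, mul_comm]

lemma SMat_translate' {u : ℂ → ℝ} {c : ℂ} (h : SMat (fun l => u (c + l)) 0) : SMat u c := by
  obtain ⟨r0, h0, hc, hs⟩ := h
  refine ⟨r0, h0, ?_, fun r hr hr' => ?_⟩
  · have : ContinuousOn ((fun l => u (c + l)) ∘ (fun z => z - c)) (ball c r0) := by
      refine hc.comp (by fun_prop) (fun z hz => ?_)
      rw [mem_ball, dist_eq_norm] at hz ⊢
      simpa using hz
    refine this.congr (fun z _ => ?_)
    simp
  · have := hs r hr hr'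
    simp only [add_zero] at this
    have e := circleAverage_map_add_const (f := u) (c := c) (R := r)
    rw [← e]
    simpa [add_comm] using this

lemma Hyp.SM' (h : Hyp ψ) {p v : E3} {c : ℂ} (hp : p + c • v ∈ Om) :
    SMat (fun l : ℂ => ψ (p + l • v)) c := by
  apply SMat_translate'
  refine (h.SM hp v).congr (Eventually.of_forall fun z => ?_)
  show ψ (p + c • v + z • v) = ψ (p + (c + z) • v)
  rw [add_smul, add_assoc]

lemma Hyp.leaf_const (h : Hyp ψ) (k : ℕ) (l : ℂ) : ψ (PP k + l • VV k) = ψ (PP k) := by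
  obtain ⟨M, hM⟩ := h.bdd
  have hcont : Continuous (fun l : ℂ => ψ (PP k + l • VV k)) := by
    rw [continuous_iff_continuousAt]
    intro z
    exact ContinuousAt.comp (f := fun l : ℂ => PP k + l • VV k) (g := ψ)
      (h.cont (leaf_mem k z)) (cont_line' _ _).continuousAt
  have := liouville hcont (fun c => h.SM' (leaf_mem k c)) (fun z => hM _ (leaf_mem k z)) l
  simpa using this

def Kc : Set E3 := {p | ‖p 0‖ ≤ 2 ∧ ‖p 1‖ ≤ 1 / 2 ∧ ‖p 2‖ ≤ 1}

lemma Kc_sub : Kc ⊆ Om := by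
  rintro p ⟨h0, h1, h2⟩
  left
  exact ⟨by linarith, by linarith, by linarith⟩

lemma Kc_compact : IsCompact Kc := by
  apply Metric.isCompact_of_isClosed_isBounded
  · have h0 := cont_coord 0
    have h1 := cont_coord 1
    have h2 := cont_coord 2
    exact (isClosed_le h0.norm continuous_const).inter
      ((isClosed_le h1.norm continuous_const).inter (isClosed_le h2.norm continuous_const))
  · apply (isBounded_closedBall (x := (0 : E3)) (r := 3)).subset
    rintro p ⟨h0, h1, h2⟩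
    rw [mem_closedBall, dist_zero_right]
    have h3 := norm_sq3 p
    have h4 : ‖p‖ ^ 2 ≤ 3 ^ 2 := by
      rw [h3]
      nlinarith [norm_nonneg (p 0), norm_nonneg (p 1), norm_nonneg (p 2)]
    exact (pow_le_pow_iff_left₀ (norm_nonneg _) (by norm_num) two_ne_zero).1 h4

lemma Hyp.lip (h : Hyp ψ) : ∃ K, LipschitzOnWith K ψ Kc := by
  apply LocallyLipschitzOn.exists_lipschitzOnWith_of_compact Kc_compact
  intro x hx
  have hd : ContDiffAt ℝ 1 ψ x := h.diff.contDiffAt (isOpen_Om.mem_nhds (Kc_sub hx))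
  obtain ⟨K, t, ht, hK⟩ := hd.exists_lipschitzOnWith
  exact ⟨K, t, mem_nhdsWithin_of_mem_nhds ht, hK⟩

lemma Hyp.step (h : Hyp ψ) : ∃ C, ∀ k, dist (ψ (PP k)) (ψ (PP (k + 1))) ≤ C * (1 / 2) ^ k := by
  obtain ⟨K, hK⟩ := h.lip
  refine ⟨K * (1 / 4), fun k => ?_⟩
  rw [← h.leaf_const k (cc (k + 1)), ← h.leaf_const (k + 1) (cc (k + 1)), leaf_eq, leaf_eq,
    cc_mul, cc_sq]
  have e1 : xx k + dd k * (1 - -1) / 2 = xx (k + 1) := by unfold dd; ring
  have e2 : xx (k + 1) + dd (k + 1) * (1 - 1) / 2 = xx (k + 1) := by ring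
  rw [e1, e2]
  have hmem : ∀ j, vc (xx (k + 1)) (aa j) (cc (k + 1)) ∈ Kc := fun j => by
    refine ⟨norm_xx _, ?_, (norm_cc _).le⟩
    simp only [vc1]
    rw [Complex.norm_real, Real.norm_of_nonneg (aa_pos j).le]
    exact aa_le j
  refine (hK.dist_le_mul _ (hmem k) _ (hmem (k + 1))).trans ?_
  have h3 := dist_vc (xx (k + 1)) (aa k) (cc (k + 1)) (xx (k + 1)) (aa (k + 1)) (cc (k + 1))
  rw [sub_self, sub_self, norm_zero, ← Complex.ofReal_sub, Complex.norm_real, aa_succ,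
    Real.norm_eq_abs, abs_of_nonneg (by have := aa_pos k; linarith)] at h3
  have h4 : aa k - aa k / 2 = (1 / 4) * (1 / 2) ^ k := by unfold aa; ring
  have h5 : (0:ℝ) ≤ K := K.2
  rw [mul_assoc]
  apply mul_le_mul_of_nonneg_left _ h5
  rw [aa_succ]
  linarith

lemma Hyp.lim (h : Hyp ψ) : ∃ c, Tendsto (fun k => ψ (PP k)) atTop (𝓝 c) := by
  obtain ⟨C, hC⟩ := h.step
  have := cauchySeq_of_le_geometric (1 / 2) C (by norm_num) hC
  exact cauchySeq_tendsto_of_complete this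

/-! density -/

def Ex (θ : ℝ) (m : ℕ) : ℝ := Real.exp (θ + 2 * π * m)
def ka (θ : ℝ) (m : ℕ) : ℕ := ⌈Ex θ m⌉₊ - 10000

lemma Ex_tendsto (θ : ℝ) : Tendsto (Ex θ) atTop atTop := by
  unfold Ex
  apply Real.tendsto_exp_atTop.comp
  apply tendsto_atTop_add_const_left
  exact tendsto_natCast_atTop_atTop.const_mul_atTop two_pi_pos

lemma ka_tendsto (θ : ℝ) : Tendsto (ka θ) atTop atTop := by
  unfold ka
  exact (tendsto_sub_atTop_nat 10000).comp ((tendsto_nat_ceil_atTop).comp (Ex_tendsto θ))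

lemma nn_ka (θ : ℝ) : ∀ᶠ m in atTop, nn (ka θ m) = ⌈Ex θ m⌉₊ := by
  have h1 : Tendsto (fun m => ⌈Ex θ m⌉₊) atTop atTop :=
    (tendsto_nat_ceil_atTop).comp (Ex_tendsto θ)
  filter_upwards [h1.eventually_ge_atTop 10000] with m hm
  unfold nn ka
  rw [Nat.cast_sub hm]
  push_cast
  ring

lemma ww_tendsto (θ : ℝ) :
    Tendsto (fun m => ww (ka θ m)) atTop (𝓝 (Complex.exp (θ * Complex.I))) := by
  have h1 : Tendsto (fun m => Real.log ((⌈Ex θ m⌉₊ : ℝ) / Ex θ m)) atTop (𝓝 0) := by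
    have e1 : Tendsto (fun m => (⌈Ex θ m⌉₊ : ℝ) / Ex θ m) atTop (𝓝 1) :=
      (tendsto_nat_ceil_div_atTop (R := ℝ)).comp (Ex_tendsto θ)
    have e2 := (Real.continuousAt_log one_ne_zero).tendsto.comp e1
    rw [Real.log_one] at e2
    exact e2
  have h2 : Tendsto (fun m => Complex.exp ((Real.log ((⌈Ex θ m⌉₊ : ℝ) / Ex θ m) : ℝ) * Complex.I)
      * Complex.exp (θ * Complex.I)) atTop (𝓝 (Complex.exp (θ * Complex.I))) := by
    have e3 : Continuous (fun s : ℝ => Complex.exp ((s : ℂ) * Complex.I)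
      * Complex.exp (θ * Complex.I)) := by fun_prop
    have := (e3.tendsto 0).comp h1
    simpa [Function.comp_def] using this
  refine h2.congr' ?_
  filter_upwards [nn_ka θ] with m hm
  unfold ww tt
  rw [hm]
  have hE : 0 < Ex θ m := Real.exp_pos _
  have hc : (0:ℝ) < ⌈Ex θ m⌉₊ := Nat.cast_pos.2 (Nat.ceil_pos.2 hE)
  rw [Real.log_div hc.ne' hE.ne']
  have e4 : Real.log (Ex θ m) = θ + 2 * π * m := by unfold Ex; rw [Real.log_exp]
  rw [e4, ← Complex.exp_add]
  have e5 : ((Real.log (⌈Ex θ m⌉₊ : ℝ) : ℝ) : ℂ) * Complex.I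
      = (((Real.log (⌈Ex θ m⌉₊ : ℝ) - (θ + 2 * π * m) : ℝ) : ℂ) * Complex.I + θ * Complex.I)
        + (m : ℤ) * (2 * π * Complex.I) := by
    push_cast
    ring
  rw [e5, Complex.exp_periodic.int_mul m]

lemma Hyp.circle (h : Hyp ψ) {c : ℝ} (hc : Tendsto (fun k => ψ (PP k)) atTop (𝓝 c))
    {w : ℂ} (hw : ‖w‖ = 1) : ψ (vc (pp w) 0 0) = c := by
  obtain ⟨θ, rfl⟩ : ∃ θ : ℝ, Complex.exp (θ * Complex.I) = w := by
    refine ⟨w.arg, ?_⟩
    have := Complex.norm_mul_exp_arg_mul_I w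
    rwa [hw, Complex.ofReal_one, one_mul] at this
  have h1 : Tendsto (fun m => ψ (PP (ka θ m))) atTop (𝓝 c) := hc.comp (ka_tendsto θ)
  set w := Complex.exp (θ * Complex.I) with hwdef
  have hmem : vc (pp w) 0 0 ∈ Om := by
    left
    refine ⟨?_, by simp, by simp⟩
    simp only [vc0]
    unfold pp
    calc ‖w ^ 2 + w‖ ≤ ‖w ^ 2‖ + ‖w‖ := norm_add_le _ _
      _ = 2 := by rw [norm_pow, hw]; norm_num
      _ < 3 := by norm_num
  have h2 : Tendsto (fun m => PP (ka θ m)) atTop (𝓝 (vc (pp w) 0 0)) := by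
    rw [tendsto_iff_dist_tendsto_zero]
    have hb : ∀ m, dist (PP (ka θ m)) (vc (pp w) 0 0)
        ≤ ‖pp (ww (ka θ m)) - pp w‖ + 3 * ee (ka θ m) + aa (ka θ m) := by
      intro m
      unfold PP
      refine (dist_vc _ _ _ _ _ _).trans ?_
      rw [sub_zero, sub_zero, norm_zero, add_zero, Complex.norm_real,
        Real.norm_of_nonneg (aa_pos _).le]
      have e1 : xx (ka θ m) + dd (ka θ m) / 2 - pp w
        = (pp (ww (ka θ m)) - pp w) + dd (ka θ m) / 2 := by unfold xx; ring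
      rw [e1]
      have e2 := norm_add_le (pp (ww (ka θ m)) - pp w) (dd (ka θ m) / 2)
      have e3 : ‖dd (ka θ m) / 2‖ ≤ 3 * ee (ka θ m) := by
        rw [norm_div]
        have := norm_dd (ka θ m)
        have e5 : ‖(2:ℂ)‖ = 2 := by norm_num
        rw [e5]
        have := norm_nonneg (dd (ka θ m))
        linarith
      linarith
    refine squeeze_zero (fun m => dist_nonneg) hb ?_
    have t1 : Tendsto (fun m => ‖pp (ww (ka θ m)) - pp w‖) atTop (𝓝 0) := by
      have hcont : Continuous (fun y : ℂ => ‖pp y - pp w‖) := by unfold pp; fun_prop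
      have := (hcont.tendsto w).comp (ww_tendsto θ)
      simpa [Function.comp_def] using this
    have t2 : Tendsto (fun m => 3 * ee (ka θ m)) atTop (𝓝 0) := by
      have := (ee_tendsto.comp (ka_tendsto θ)).const_mul 3
      simpa using this
    have t3 : Tendsto (fun m => aa (ka θ m)) atTop (𝓝 0) := aa_tendsto.comp (ka_tendsto θ)
    simpa using (t1.add t2).add t3
  have h3 : Tendsto (fun m => ψ (PP (ka θ m))) atTop (𝓝 (ψ (vc (pp w) 0 0))) :=
    (h.cont hmem).tendsto.comp h2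
  exact tendsto_nhds_unique h3 h1

/-! the open set `W = p(𝔻)` -/

def WW : Set ℂ := pp '' ball 0 1

lemma pp_open : IsOpen WW := by
  have han : AnalyticOnNhd ℂ pp univ := fun z _ => by unfold pp; fun_prop
  rcases han.is_constant_or_isOpenMap with ⟨w, hw⟩ | h
  · exfalso
    have h0 := hw 0
    have h1 := hw 1
    simp only [pp] at h0 h1
    rw [← h0] at h1
    norm_num at h1
  · exact h _ isOpen_ball

lemma cont_pp : Continuous pp := by unfold pp; fun_prop

lemma WW_conn : IsPreconnected WW :=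
  (convex_ball (0:ℂ) 1).isPreconnected.image _ cont_pp.continuousOn

lemma WW_closure : closure WW ⊆ pp '' closedBall 0 1 := by
  apply closure_minimal (image_mono ball_subset_closedBall)
  exact ((isCompact_closedBall (0:ℂ) 1).image cont_pp).isClosed

lemma WW_norm {z : ℂ} (hz : z ∈ closure WW) : ‖z‖ ≤ 2 := by
  obtain ⟨w, hw, rfl⟩ := WW_closure hz
  have hw' : ‖w‖ ≤ 1 := by simpa using hw
  unfold pp
  calc ‖w ^ 2 + w‖ ≤ ‖w ^ 2‖ + ‖w‖ := norm_add_le _ _
    _ ≤ 2 := by rw [norm_pow]; nlinarith [norm_nonneg w]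

lemma WW_bdd : Bornology.IsBounded WW := by
  apply (isBounded_closedBall (x := (0 : ℂ)) (r := 2)).subset
  intro z hz
  simpa using WW_norm (subset_closure hz)

lemma WW_frontier {z : ℂ} (hz : z ∈ frontier WW) : ∃ w : ℂ, ‖w‖ = 1 ∧ pp w = z := by
  obtain ⟨w, hw, rfl⟩ := WW_closure (frontier_subset_closure hz)
  rw [pp_open.frontier_eq] at hz
  have hw' : ‖w‖ ≤ 1 := by simpa using hw
  refine ⟨w, le_antisymm hw' ?_, rfl⟩
  by_contra hlt
  push Not at hlt
  exact hz.2 ⟨w, by simpa using hlt, rfl⟩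

lemma vc_mem {z : ℂ} (hz : ‖z‖ < 3) : vc z 0 0 ∈ Om := Or.inl ⟨hz, by simp, by simp⟩

theorem Hyp.const (h : Hyp ψ) : ∃ c, ∀ z ∈ WW, ψ (vc z 0 0) = c := by
  obtain ⟨c, hc⟩ := h.lim
  refine ⟨c, ?_⟩
  have hSM : ∀ z : ℂ, ‖z‖ < 3 → SMat (fun z => ψ (vc z 0 0)) z := by
    intro z hz
    apply SMat_translate'
    refine (h.SM (vc_mem hz) (vc 1 0 0)).congr (Eventually.of_forall fun l => ?_)
    show ψ (vc z 0 0 + l • vc 1 0 0) = ψ (vc (z + l) 0 0)
    rw [vc_add_smul]
    congr 2 <;> ring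
  have hcont : ContinuousOn (fun z => ψ (vc z 0 0)) (closure WW) := by
    intro z hz
    apply ContinuousAt.continuousWithinAt
    exact ContinuousAt.comp (f := fun z : ℂ => vc z 0 0) (g := ψ)
      (h.cont (vc_mem (by have := WW_norm hz; linarith))) cont_vc0.continuousAt
  have hSMW : ∀ z ∈ WW, SMat (fun z => ψ (vc z 0 0)) z := fun z hz =>
    hSM z (by have := WW_norm (subset_closure hz); linarith)
  have hweak := weak_max pp_open WW_bdd hcont hSMW (M := c) (fun z hz => by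
    obtain ⟨w, hw, rfl⟩ := WW_frontier hz
    exact (h.circle hc hw).le)
  have h0 : ψ (vc 0 0 0) = c := by
    have := h.circle hc (w := -1) (by simp)
    have e : pp (-1) = 0 := by unfold pp; norm_num
    rwa [e] at this
  have h0W : (0:ℂ) ∈ WW := ⟨0, by simp, by simp [pp]⟩
  have := strong_max pp_open WW_conn hSMW h0W (fun z hz => by
    show ψ (vc z 0 0) ≤ ψ (vc 0 0 0)
    rw [h0]; exact hweak z (subset_closure hz))
  intro z hz
  have h1 : ψ (vc z 0 0) = ψ (vc 0 0 0) := this z hz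
  rw [h1, h0]

lemma star_mem : (3 / 4 : ℂ) ∈ WW := by
  refine ⟨1 / 2, ?_, ?_⟩
  · rw [mem_ball, dist_zero_right]; norm_num
  · unfold pp; norm_num

end

end U500Core
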