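import Mathlib

/-! One-variable potential theory used for the core problem: maximum principle, Liouville,
local-to-global sub-mean inequality (with one removable point). -/

namespace U500Core

open Metric Real Set Filter Topology

/-- continuous near `c` and satisfies the sub-mean value inequality on all small circles about `c` -/
def SMat (u : ℂ → ℝ) (c : ℂ) : Prop :=
  ∃ r₀ > 0, ContinuousOn u (ball c r₀) ∧ ∀ r, 0 < r → r < r₀ → u c ≤ circleAverage u c r

lemma sphere_subset_ball' {c : ℂ} {r r₀ : ℝ} (h0 : 0 < r) (h : r < r₀) :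
    sphere c |r| ⊆ ball c r₀ := by
  rw [abs_of_pos h0]
  intro z hz
  rw [mem_sphere] at hz
  rw [mem_ball, hz]; exact h

lemma circInt {u : ℂ → ℝ} {c : ℂ} {r r₀ : ℝ} (hc : ContinuousOn u (ball c r₀))
    (h0 : 0 < r) (h : r < r₀) : CircleIntegrable u c r :=
  (hc.mono (sphere_subset_ball' h0 h)).circleIntegrable'

lemma SMat.add {u v : ℂ → ℝ} {c : ℂ} (hu : SMat u c) (hv : SMat v c) :
    SMat (fun z => u z + v z) c := by
  obtain ⟨r1, h1, c1, s1⟩ := hu
  obtain ⟨r2, h2, c2, s2⟩ := hv
  refine ⟨min r1 r2, lt_min h1 h2, (c1.mono (ball_subset_ball (min_le_left _ _))).add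
    (c2.mono (ball_subset_ball (min_le_right _ _))), fun r hr hr' => ?_⟩
  have a1 := lt_of_lt_of_le hr' (min_le_left _ _)
  have a2 := lt_of_lt_of_le hr' (min_le_right _ _)
  rw [circleAverage_fun_add (circInt c1 hr a1) (circInt c2 hr a2)]
  exact add_le_add (s1 r hr a1) (s2 r hr a2)

lemma SMat.congr {u v : ℂ → ℝ} {c : ℂ} (hu : SMat u c) (h : ∀ᶠ z in 𝓝 c, u z = v z) :
    SMat v c := by
  obtain ⟨r1, h1, c1, s1⟩ := hu
  obtain ⟨r2, h2, h3⟩ := Metric.eventually_nhds_iff_ball.1 h
  refine ⟨min r1 r2, lt_min h1 h2, (c1.mono (ball_subset_ball (min_le_left _ _))).congr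
    (fun z hz => (h3 z (ball_subset_ball (min_le_right _ _) hz)).symm), fun r hr hr' => ?_⟩
  have a1 := lt_of_lt_of_le hr' (min_le_left _ _)
  have a2 := lt_of_lt_of_le hr' (min_le_right _ _)
  rw [← h3 c (mem_ball_self h2), ← circleAverage_congr_sphere (f₁ := u) (f₂ := v)
    (fun z hz => h3 z (sphere_subset_ball' hr a2 hz))]
  exact s1 r hr a1

lemma SMat.key {u : ℂ → ℝ} {c : ℂ} (hu : SMat u c) (h : ∀ᶠ z in 𝓝 c, u z ≤ u c) :
    ∀ᶠ z in 𝓝 c, u z = u c := by
  obtain ⟨r1, h1, c1, s1⟩ := hu
  obtain ⟨r2, h2, h3⟩ := Metric.eventually_nhds_iff_ball.1 h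
  rw [Metric.eventually_nhds_iff_ball]
  refine ⟨min r1 r2, lt_min h1 h2, fun z hz => ?_⟩
  by_contra hne
  have hz1 : z ∈ ball c r1 := ball_subset_ball (min_le_left _ _) hz
  have hz2 : z ∈ ball c r2 := ball_subset_ball (min_le_right _ _) hz
  have hlt : u z < u c := lt_of_le_of_ne (h3 z hz2) hne
  have hzc : z ≠ c := fun h => by rw [h] at hlt; exact lt_irrefl _ hlt
  set r := ‖z - c‖ with hr
  have hr0 : 0 < r := by rw [hr]; exact norm_pos_iff.2 (sub_ne_zero.2 hzc)
  have hr1 : r < r1 := by rw [mem_ball, dist_eq_norm] at hz1; exact hz1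
  have hr2 : r < r2 := by rw [mem_ball, dist_eq_norm] at hz2; exact hz2
  have hs := s1 r hr0 hr1
  -- angle
  have hzs : z ∈ sphere c |r| := by rw [abs_of_pos hr0, mem_sphere, dist_eq_norm]
  rw [← image_circleMap_Ioc] at hzs
  obtain ⟨θ, hθ, hθz⟩ := hzs
  have hcont : ContinuousOn (fun t => u (circleMap c r t)) (Icc 0 (2 * π)) := by
    refine c1.comp (continuous_circleMap c r).continuousOn (fun t _ => ?_)
    exact sphere_subset_ball' hr0 hr1 (circleMap_mem_sphere' c r t)
  have hlt2 : ∫ t in (0:ℝ)..(2 * π), u (circleMap c r t) < ∫ t in (0:ℝ)..(2 * π), u c := by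
    refine intervalIntegral.integral_lt_integral_of_continuousOn_of_le_of_exists_lt
      two_pi_pos hcont continuousOn_const (fun t _ => ?_) ⟨θ, ⟨hθ.1.le, hθ.2⟩, ?_⟩
    · exact h3 _ (sphere_subset_ball' hr0 hr2 (circleMap_mem_sphere' c r t))
    · rw [hθz]; exact hlt
  rw [circleAverage_def, smul_eq_mul] at hs
  rw [intervalIntegral.integral_const, smul_eq_mul, sub_zero] at hlt2
  have hp : (0:ℝ) < (2 * π)⁻¹ := by positivity
  have := mul_lt_mul_of_pos_left hlt2 hp
  rw [← mul_assoc, inv_mul_cancel₀ (by positivity), one_mul] at this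
  linarith

/-- strong maximum principle -/
lemma strong_max {W : Set ℂ} (hW : IsOpen W) (hp : IsPreconnected W) {u : ℂ → ℝ}
    (hs : ∀ c ∈ W, SMat u c) {z₀ : ℂ} (hz₀ : z₀ ∈ W) (hm : ∀ z ∈ W, u z ≤ u z₀) :
    ∀ z ∈ W, u z = u z₀ := by
  have hcont : ContinuousOn u W := fun c hc => by
    obtain ⟨r1, h1, c1, _⟩ := hs c hc
    exact (c1.continuousAt (ball_mem_nhds c h1)).continuousWithinAt
  -- S = {z ∈ W | u z = u z₀} open ; {z ∈ W | u z < u z₀} open
  have hop1 : IsOpen {z | z ∈ W ∧ u z = u z₀} := by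
    rw [isOpen_iff_mem_nhds]
    rintro z ⟨hz, hzu⟩
    have h1 : ∀ᶠ y in 𝓝 z, u y ≤ u z := by
      filter_upwards [hW.mem_nhds hz] with y hy
      rw [hzu]; exact hm y hy
    filter_upwards [hW.mem_nhds hz, (hs z hz).key h1] with y hy hy2
    exact ⟨hy, hy2.trans hzu⟩
  have hop2 : IsOpen {z | z ∈ W ∧ u z < u z₀} := by
    have := hcont.isOpen_inter_preimage hW (isOpen_Iio (a := u z₀))
    exact this
  by_contra hcon
  push Not at hcon
  obtain ⟨z1, hz1, hz1u⟩ := hcon
  have := hp _ _ hop1 hop2 (fun z hz => by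
    rcases (hm z hz).lt_or_eq with h | h
    · right; exact ⟨hz, h⟩
    · left; exact ⟨hz, h⟩) ⟨z₀, hz₀, hz₀, rfl⟩ ⟨z1, hz1, hz1, lt_of_le_of_ne (hm z1 hz1) hz1u⟩
  obtain ⟨y, _, hy1, hy2⟩ := this
  exact absurd hy1.2 hy2.2.ne

/-- weak maximum principle on bounded open sets -/
lemma weak_max {W : Set ℂ} (hW : IsOpen W) (hb : Bornology.IsBounded W) {u : ℂ → ℝ}
    (hc : ContinuousOn u (closure W)) (hs : ∀ c ∈ W, SMat u c) {M : ℝ}
    (hf : ∀ z ∈ frontier W, u z ≤ M) : ∀ z ∈ closure W, u z ≤ M := by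
  have hK : IsCompact (closure W) := hb.isCompact_closure
  intro z hz
  obtain ⟨z1, hz1, hmax⟩ := hK.exists_isMaxOn ⟨z, hz⟩ hc
  refine le_trans (hmax hz) ?_
  by_contra hM
  push Not at hM
  -- S clopen
  set S : Set ℂ := {y | y ∈ closure W ∧ u y = u z1} with hS
  have hScl : IsClosed S := by
    have := hc.preimage_isClosed_of_isClosed isClosed_closure (isClosed_singleton (x := u z1))
    convert this using 1
    ext y; simp [hS]
  have hSop : IsOpen S := by
    rw [isOpen_iff_mem_nhds]
    rintro y ⟨hy, hyu⟩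
    have hyW : y ∈ W := by
      by_contra hyW
      have : y ∈ frontier W := by
        rw [hW.frontier_eq]; exact ⟨hy, hyW⟩
      have := hf y this
      rw [hyu] at this
      linarith
    have h1 : ∀ᶠ y' in 𝓝 y, u y' ≤ u y := by
      filter_upwards [hW.mem_nhds hyW] with y' hy'
      rw [hyu]; exact hmax (subset_closure hy')
    filter_upwards [hW.mem_nhds hyW, (hs y hyW).key h1] with y' hy' hy2
    exact ⟨subset_closure hy', hy2.trans hyu⟩
  have huniv : S = univ := (IsClopen.eq_univ ⟨hScl, hSop⟩ ⟨z1, hz1, rfl⟩)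
  have : IsCompact (univ : Set ℂ) := by
    rw [← huniv]
    exact hK.of_isClosed_subset hScl (fun y hy => hy.1)
  exact noncompact_univ ℂ this

lemma SMat_of_harm {h : ℂ → ℝ} {c : ℂ} {ρ : ℝ} (hρ : 0 < ρ)
    (hh : InnerProductSpace.HarmonicOnNhd h (ball c ρ)) (t : ℝ) : SMat (fun z => t * h z) c := by
  have hcont : ContinuousOn h (ball c ρ) := fun z hz =>
    (hh z hz).1.continuousAt.continuousWithinAt
  refine ⟨ρ, hρ, continuousOn_const.mul hcont, fun r hr hr' => ?_⟩
  have hsub : closedBall c |r| ⊆ ball c ρ := by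
    rw [abs_of_pos hr]; exact closedBall_subset_ball hr'
  have h1 : circleAverage h c r = h c :=
    InnerProductSpace.HarmonicOnNhd.circleAverage_eq (fun z hz => hh z (hsub hz))
  have h2 : circleAverage (fun z => t * h z) c r = t * circleAverage h c r := by
    have := circleAverage_fun_smul (f := h) (a := t) (c := c) (R := r)
    simpa [smul_eq_mul] using this
  rw [h2, h1]

lemma SMat_log {c : ℂ} (hc : c ≠ 0) (t : ℝ) : SMat (fun z => t * Real.log ‖z‖) c := by
  refine SMat_of_harm (ρ := ‖c‖) (norm_pos_iff.2 hc) (h := fun z => Real.log ‖z‖) ?_ t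
  intro z hz
  apply AnalyticAt.harmonicAt_log_norm (f := fun z => z) (by fun_prop)
  rintro rfl
  rw [mem_ball, dist_comm, dist_zero_right] at hz
  exact lt_irrefl _ hz

lemma SMat_const (a : ℝ) (c : ℂ) : SMat (fun _ => a) c :=
  ⟨1, one_pos, continuousOn_const, fun r _ _ => by rw [circleAverage_const]⟩

/-- Liouville for subharmonic functions -/
lemma liouville {u : ℂ → ℝ} (hc : Continuous u) (hs : ∀ c, SMat u c) {M : ℝ}
    (hM : ∀ z, u z ≤ M) : ∀ z, u z = u 0 := by
  -- max on the unit circle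
  obtain ⟨z1, hz1, hmax⟩ := (isCompact_sphere (0:ℂ) 1).exists_isMaxOn
    ⟨1, by simp⟩ hc.continuousOn
  have hout : ∀ z : ℂ, 1 ≤ ‖z‖ → u z ≤ u z1 := by
    intro z hz
    apply le_of_forall_pos_le_add
    intro ε hε
    -- choose η with η log ‖z‖ ≤ ε
    obtain ⟨η, hη, hη2⟩ : ∃ η > 0, η * Real.log ‖z‖ ≤ ε := by
      have h0 : 0 ≤ Real.log ‖z‖ := Real.log_nonneg hz
      refine ⟨ε / (Real.log ‖z‖ + 1), by positivity, ?_⟩
      rw [div_mul_eq_mul_div, div_le_iff₀ (by positivity)]
      nlinarith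
    -- R large
    obtain ⟨R, hR1, hR2⟩ : ∃ R, ‖z‖ < R ∧ M - η * Real.log R ≤ u z1 := by
      have ht : Tendsto (fun R => M - η * Real.log R) atTop atBot := by
        have := (Real.tendsto_log_atTop.const_mul_atTop hη)
        simpa [sub_eq_add_neg] using tendsto_atBot_add_const_left atTop M
          (tendsto_neg_atTop_atBot.comp this)
      have h1 := ht.eventually_le_atBot (u z1)
      obtain ⟨R, hR⟩ := (h1.and (eventually_gt_atTop ‖z‖)).exists
      exact ⟨R, hR.2, hR.1⟩
    set W : Set ℂ := ball 0 R \ closedBall 0 1 with hWdef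
    have hWo : IsOpen W := isOpen_ball.sdiff isClosed_closedBall
    have hWb : Bornology.IsBounded W := isBounded_ball.subset sdiff_subset
    have hcl : closure W ⊆ closedBall 0 R \ ball 0 1 := by
      apply closure_minimal
      · intro y hy
        exact ⟨ball_subset_closedBall hy.1, fun h => hy.2 (ball_subset_closedBall h)⟩
      · exact isClosed_closedBall.sdiff isOpen_ball
    have hnz : ∀ y ∈ closure W, y ≠ 0 := by
      intro y hy h
      apply (hcl hy).2
      rw [h]; simp
    have hres := weak_max hWo hWb (u := fun y => u y + (-η) * Real.log ‖y‖) (M := u z1) ?_ ?_ ?_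
      z ?_
    · have hres' : u z + (-η) * Real.log ‖z‖ ≤ u z1 := hres
      nlinarith
    · refine hc.continuousOn.add (continuousOn_const.mul ?_)
      exact (continuous_norm.continuousOn).log (fun y hy => by
        rw [norm_ne_zero_iff]; exact hnz y hy)
    · intro y hy
      exact (hs y).add (SMat_log (hnz y (subset_closure hy)) _)
    · intro y hy
      have hy1 := hcl (frontier_subset_closure hy)
      have hy2 : y ∉ W := by
        rw [hWo.frontier_eq] at hy; exact hy.2
      simp only [Set.mem_sdiff, mem_closedBall, dist_zero_right, mem_ball, not_lt] at hy1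
      simp only [hWdef, Set.mem_sdiff, mem_closedBall, dist_zero_right, mem_ball, not_and, not_not] at hy2
      rcases lt_or_ge ‖y‖ R with h | h
      · have h3 : ‖y‖ = 1 := le_antisymm (hy2 h) hy1.2
        rw [h3, Real.log_one, mul_zero, add_zero]
        exact hmax (by simpa using h3)
      · have h3 : ‖y‖ = R := le_antisymm hy1.1 h
        rw [h3]
        have := hM y
        linarith
    · rcases hz.lt_or_eq with h | h
      · apply subset_closure
        exact ⟨by simpa using hR1, by simpa using h⟩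
      · -- ‖z‖ = 1: in closure: use sequence t z, t → 1+
        rw [mem_closure_iff_nhds]
        intro t ht
        have hcont : Tendsto (fun s : ℝ => (s : ℂ) * z) (𝓝 1) (𝓝 z) := by
          have : Continuous (fun s : ℝ => (s : ℂ) * z) := by fun_prop
          simpa using this.tendsto 1
        have h1 : ∀ᶠ s : ℝ in 𝓝[>] (1:ℝ), (s : ℂ) * z ∈ t :=
          (hcont.mono_left nhdsWithin_le_nhds).eventually_mem ht
        have h2 : ∀ᶠ s : ℝ in 𝓝[>] (1:ℝ), s < R := by
          have : (1:ℝ) < R := by rw [h]; exact hR1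
          exact (eventually_lt_nhds this).filter_mono nhdsWithin_le_nhds
        obtain ⟨s, hs1, hs2, hs3⟩ := (h1.and (h2.and self_mem_nhdsWithin)).exists
        have hs3' : (1:ℝ) < s := hs3
        refine ⟨(s : ℂ) * z, hs1, ?_⟩
        have hn : ‖(s : ℂ) * z‖ = s := by
          rw [norm_mul, ← h, mul_one, Complex.norm_real, Real.norm_of_nonneg (by linarith)]
        constructor
        · simp only [mem_ball, dist_zero_right, hn]; exact hs2
        · simp only [mem_closedBall, dist_zero_right, hn, not_le]; exact hs3'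
  have hin : ∀ z : ℂ, ‖z‖ ≤ 1 → u z ≤ u z1 := by
    intro z hz
    have := weak_max (W := ball (0:ℂ) 1) isOpen_ball isBounded_ball (u := u) (M := u z1)
      hc.continuousOn (fun c _ => hs c) (fun y hy => by
        rw [frontier_ball _ one_ne_zero] at hy
        exact hmax hy) z (by
        rw [closure_ball _ one_ne_zero]; simpa using hz)
    exact this
  have hall : ∀ z, u z ≤ u z1 := fun z => by
    rcases le_total ‖z‖ 1 with h | h
    · exact hin z h
    · exact hout z h
  have := strong_max isOpen_univ isPreconnected_univ (fun c _ => hs c) (mem_univ z1)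
    (fun z _ => hall z)
  intro z
  rw [this z (mem_univ _), this 0 (mem_univ _)]

end U500Core
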