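import Pool.Agent.U500.CoreS.LocGlob

/-! Sequences, functions and elementary estimates of the construction. -/

namespace U500Core

open Metric Real Set Filter Topology

noncomputable section

/-- `ℂ³` -/
abbrev E3 := EuclideanSpace ℂ (Fin 3)

def nn (k : ℕ) : ℝ := k + 10000
def tt (k : ℕ) : ℝ := Real.log (nn k)
def ww (k : ℕ) : ℂ := Complex.exp (tt k * Complex.I)
def pp (w : ℂ) : ℂ := w ^ 2 + w
def xx (k : ℕ) : ℂ := pp (ww k)
def dd (k : ℕ) : ℂ := xx (k + 1) - xx k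
def aa (k : ℕ) : ℝ := (1 / 2) ^ (k + 1)
def rho (k : ℕ) : ℝ := aa k / 8
def ee (k : ℕ) : ℝ := 1 / nn k
def cc (k : ℕ) : ℂ := (-1) ^ k
def rr (k : ℕ) : ℝ := ee k / 16
def sg (k : ℕ) : ℝ := rho k * Real.exp (-(40 / rho k ^ 2))
def ss (k : ℕ) : ℝ := rr k ^ 2 / 6
def LL (k : ℕ) : ℝ := Real.log (6 / rr k)

lemma nn_pos (k : ℕ) : 0 < nn k := by unfold nn; positivity
lemma ee_pos (k : ℕ) : 0 < ee k := by unfold ee; exact div_pos one_pos (nn_pos k)
lemma ee_le (k : ℕ) : ee k ≤ 1 / 10000 := by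
  unfold ee nn
  apply one_div_le_one_div_of_le (by norm_num)
  have : (0:ℝ) ≤ k := Nat.cast_nonneg k
  linarith
lemma ee_anti {j k : ℕ} (h : j ≤ k) : ee k ≤ ee j := by
  unfold ee nn
  apply one_div_le_one_div_of_le (by positivity)
  have : (j:ℝ) ≤ k := Nat.cast_le.2 h
  linarith
lemma ee_tendsto : Tendsto ee atTop (𝓝 0) := by
  unfold ee
  apply Tendsto.const_div_atTop
  unfold nn
  exact tendsto_atTop_add_const_right _ _ tendsto_natCast_atTop_atTop
lemma aa_pos (k : ℕ) : 0 < aa k := by unfold aa; positivity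
lemma aa_succ (k : ℕ) : aa (k + 1) = aa k / 2 := by unfold aa; ring
lemma aa_le (k : ℕ) : aa k ≤ 1 / 2 := by
  unfold aa
  rw [pow_succ]
  have : (1 / 2 : ℝ) ^ k ≤ 1 := pow_le_one₀ (by norm_num) (by norm_num)
  linarith
lemma aa_anti {j k : ℕ} (h : j ≤ k) : aa k ≤ aa j := by
  unfold aa
  exact pow_le_pow_of_le_one (by norm_num) (by norm_num) (by omega)
lemma aa_half {j k : ℕ} (h : j < k) : aa k ≤ aa j / 2 := by
  rw [← aa_succ]; exact aa_anti h
lemma aa_tendsto : Tendsto aa atTop (𝓝 0) := by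
  have h := tendsto_pow_atTop_nhds_zero_of_lt_one (r := (1/2:ℝ)) (by norm_num) (by norm_num)
  exact h.comp (tendsto_add_atTop_nat 1)
lemma rho_pos (k : ℕ) : 0 < rho k := by unfold rho; have := aa_pos k; positivity
lemma rho_le (k : ℕ) : rho k ≤ 1 / 16 := by unfold rho; have := aa_le k; linarith
lemma rr_pos (k : ℕ) : 0 < rr k := by unfold rr; have := ee_pos k; positivity
lemma rr_le (k : ℕ) : rr k ≤ 1 / 160000 := by unfold rr; have := ee_le k; linarith
lemma ss_pos (k : ℕ) : 0 < ss k := by unfold ss; have := rr_pos k; positivity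
lemma ss_lt (k : ℕ) : ss k < rr k := by
  unfold ss; have := rr_pos k; have := rr_le k; nlinarith
lemma sg_pos (k : ℕ) : 0 < sg k := mul_pos (rho_pos k) (Real.exp_pos _)
lemma sg_lt (k : ℕ) : sg k < rho k / 4 := by
  unfold sg
  have h1 := rho_pos k
  have h2 := rho_le k
  have h3 : (40:ℝ) ≤ 40 / rho k ^ 2 := by
    rw [le_div_iff₀ (by positivity)]; nlinarith
  have h4 : Real.exp (-(40 / rho k ^ 2)) ≤ Real.exp (-40) := Real.exp_le_exp.2 (by linarith)
  have h5 : Real.exp (-40) < 1 / 4 := by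
    rw [Real.exp_neg, ← one_div]
    apply one_div_lt_one_div_of_lt (by norm_num)
    have := Real.add_one_le_exp (40:ℝ)
    linarith
  calc rho k * Real.exp (-(40 / rho k ^ 2)) < rho k * (1 / 4) :=
        mul_lt_mul_of_pos_left (lt_of_le_of_lt h4 h5) h1
    _ = _ := by ring
lemma LL_pos (k : ℕ) : 0 < LL k := by
  unfold LL
  apply Real.log_pos
  rw [lt_div_iff₀ (rr_pos k)]
  have := rr_le k; linarith

lemma norm_ww (k : ℕ) : ‖ww k‖ = 1 := by
  unfold ww; exact Complex.norm_exp_ofReal_mul_I _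

lemma norm_xx (k : ℕ) : ‖xx k‖ ≤ 2 := by
  unfold xx pp
  calc ‖ww k ^ 2 + ww k‖ ≤ ‖ww k ^ 2‖ + ‖ww k‖ := norm_add_le _ _
    _ = 2 := by rw [norm_pow, norm_ww]; norm_num

lemma xx_far (k : ℕ) : 1 / 4 ≤ ‖xx k - 3 / 4‖ := by
  have h : xx k - 3 / 4 = (ww k - 1 / 2) * (ww k + 3 / 2) := by unfold xx pp; ring
  rw [h, norm_mul]
  have h1 : 1 / 2 ≤ ‖ww k - 1 / 2‖ := by
    have := norm_sub_norm_le (ww k) (1 / 2 : ℂ)
    rw [norm_ww] at this
    have h2 : ‖(1 / 2 : ℂ)‖ = 1 / 2 := by norm_num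
    rw [h2] at this; linarith
  have h3 : 1 / 2 ≤ ‖ww k + 3 / 2‖ := by
    have := norm_sub_norm_le (3 / 2 : ℂ) (-ww k)
    rw [norm_neg, norm_ww, sub_neg_eq_add, add_comm (3 / 2 : ℂ)] at this
    have h2 : ‖(3 / 2 : ℂ)‖ = 3 / 2 := by norm_num
    rw [h2] at this; linarith
  nlinarith

lemma norm_dd (k : ℕ) : ‖dd k‖ ≤ 3 * ee k := by
  have h : dd k = (ww (k + 1) - ww k) * (ww (k + 1) + ww k + 1) := by
    unfold dd xx pp; ring
  rw [h, norm_mul]
  have h1 : ‖ww (k + 1) + ww k + 1‖ ≤ 3 := by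
    calc ‖ww (k + 1) + ww k + 1‖ ≤ ‖ww (k + 1)‖ + ‖ww k‖ + ‖(1:ℂ)‖ := norm_add₃_le
      _ = 3 := by rw [norm_ww, norm_ww, norm_one]; norm_num
  have h2 : ‖ww (k + 1) - ww k‖ ≤ ee k := by
    have e1 : ww (k + 1) - ww k = ww k * (Complex.exp (Complex.I * ((tt (k + 1) - tt k : ℝ) : ℂ)) - 1) := by
      unfold ww
      rw [mul_sub, mul_one, ← Complex.exp_add]
      congr 2
      push_cast
      ring
    rw [e1, norm_mul, norm_ww, one_mul]
    refine (Real.norm_exp_I_mul_ofReal_sub_one_le).trans ?_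
    rw [Real.norm_eq_abs]
    have hn := nn_pos k
    have hn' := nn_pos (k + 1)
    have e2 : tt (k + 1) - tt k = Real.log (nn (k + 1) / nn k) := by
      unfold tt; rw [Real.log_div hn'.ne' hn.ne']
    have e3 : nn (k + 1) / nn k = 1 + ee k := by
      have h0 : nn (k + 1) = nn k + 1 := by unfold nn; push_cast; ring
      rw [h0]; unfold ee; field_simp
    rw [e2, e3]
    have he := ee_pos k
    rw [abs_of_nonneg (Real.log_nonneg (by linarith))]
    have := Real.log_le_sub_one_of_pos (x := 1 + ee k) (by linarith)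
    linarith
  have he := ee_pos k
  calc ‖ww (k + 1) - ww k‖ * ‖ww (k + 1) + ww k + 1‖ ≤ ee k * 3 :=
        mul_le_mul h2 h1 (norm_nonneg _) he.le
    _ = 3 * ee k := by ring

lemma norm_cc (k : ℕ) : ‖cc k‖ = 1 := by unfold cc; simp

lemma cc_mul (k : ℕ) : cc k * cc (k + 1) = -1 := by
  unfold cc
  rw [pow_succ, ← mul_assoc, ← pow_add, ← two_mul, pow_mul]
  simp

lemma cc_sq (k : ℕ) : cc k * cc k = 1 := by
  unfold cc
  rw [← pow_add, ← two_mul, pow_mul]
  simp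

/-! ### functions on `ℂ³` -/

def fA (p : E3) : ℝ := ‖p 0 - 3 / 4‖ ^ 2
def fF (k : ℕ) (p : E3) : ℂ := p 0 - xx k - dd k * (1 - cc k * p 2) / 2
def fT (k : ℕ) (p : E3) : ℝ := ‖p 1 - (aa k : ℂ)‖
def c1 (p : E3) : ℝ := fA p + ‖p 1‖ ^ 2
def hh (k : ℕ) (t : ℝ) : ℝ :=
  -t ^ 2 + rho k ^ 2 / 2 + (rho k ^ 2 / 16) * Real.log (max t (sg k) / rho k)
def c2 (k : ℕ) (p : E3) : ℝ := fA p + ‖p 1‖ ^ 2 + hh k (fT k p)
def gG (k : ℕ) (p : E3) : ℝ := fA p + (64 * ee k / LL k) * Real.log (max ‖fF k p‖ (ss k) / 6)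
def vv (k : ℕ) : ℝ := ‖xx k - 3 / 4‖ ^ 2 - 96 * ee k
def bB (p : E3) : ℝ := 1 / 32 + ‖p‖ ^ 2 / 1000

def Om0 : Set E3 := {p | ‖p 0‖ < 3 ∧ ‖p 1‖ < 1 ∧ ‖p 2‖ < 2}
def Tub (k : ℕ) : Set E3 := {p | fT k p < sg k ∧ ‖fF k p‖ < ss k}
def Om : Set E3 := Om0 ∪ ⋃ k, Tub k

lemma cont_coord (i : Fin 3) : Continuous (fun p : E3 => p i) := by fun_prop

lemma cont_fA : Continuous fA := by unfold fA; fun_prop
lemma cont_fF (k : ℕ) : Continuous (fF k) := by unfold fF; fun_prop
lemma cont_fT (k : ℕ) : Continuous (fT k) := by unfold fT; fun_prop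
lemma cont_c1 : Continuous c1 := by unfold c1; have := cont_fA; fun_prop
lemma cont_hh (k : ℕ) : Continuous (hh k) := by
  unfold hh
  have h1 := sg_pos k
  have h2 := rho_pos k
  have : Continuous (fun t : ℝ => Real.log (max t (sg k) / rho k)) := by
    apply Continuous.log (by fun_prop)
    intro t
    have : 0 < max t (sg k) := lt_max_of_lt_right h1
    positivity
  fun_prop
lemma cont_c2 (k : ℕ) : Continuous (c2 k) := by
  unfold c2
  have h1 := cont_fA
  have h2 := (cont_hh k).comp (cont_fT k)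
  exact (h1.add (by fun_prop)).add h2
lemma cont_gG (k : ℕ) : Continuous (gG k) := by
  unfold gG
  have h1 := ss_pos k
  have h0 := cont_fF k
  have : Continuous (fun p : E3 => Real.log (max ‖fF k p‖ (ss k) / 6)) := by
    apply Continuous.log (by fun_prop)
    intro t
    have : 0 < max ‖fF k t‖ (ss k) := lt_max_of_lt_right h1
    positivity
  exact cont_fA.add (continuous_const.mul this)
lemma cont_bB : Continuous bB := by unfold bB; fun_prop

lemma isOpen_Om0 : IsOpen Om0 := by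
  have h0 := cont_coord 0
  have h1 := cont_coord 1
  have h2 := cont_coord 2
  exact (isOpen_lt h0.norm continuous_const).inter
    ((isOpen_lt h1.norm continuous_const).inter (isOpen_lt h2.norm continuous_const))

lemma isOpen_Tub (k : ℕ) : IsOpen (Tub k) :=
  (isOpen_lt (cont_fT k) continuous_const).inter (isOpen_lt (cont_fF k).norm continuous_const)

lemma isOpen_Om : IsOpen Om := isOpen_Om0.union (isOpen_iUnion isOpen_Tub)

lemma norm_sq3 (p : E3) : ‖p‖ ^ 2 = ‖p 0‖ ^ 2 + ‖p 1‖ ^ 2 + ‖p 2‖ ^ 2 := by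
  rw [EuclideanSpace.norm_sq_eq, Fin.sum_univ_three]

/-! ### estimates -/

lemma A_close {k : ℕ} {p : E3} (h : p ∈ Om0) (hf : ‖fF k p‖ ≤ rr k) :
    |fA p - ‖xx k - 3 / 4‖ ^ 2| ≤ 32 * ee k := by
  obtain ⟨h0, _, h2⟩ := h
  have he := ee_pos k
  have e1 : p 0 - xx k = fF k p + dd k * (1 - cc k * p 2) / 2 := by unfold fF; ring
  have e2 : ‖p 0 - xx k‖ ≤ (4 + 9 / 16) * ee k := by
    rw [e1]
    refine (norm_add_le _ _).trans ?_
    have e3 : ‖dd k * (1 - cc k * p 2) / 2‖ ≤ 3 * ee k * (3 / 2) := by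
      rw [norm_div, norm_mul, mul_div_assoc]
      have e4 : ‖1 - cc k * p 2‖ ≤ 3 := by
        refine (norm_sub_le _ _).trans ?_
        rw [norm_mul, norm_cc, norm_one]; linarith
      have e5 : ‖(2:ℂ)‖ = 2 := by norm_num
      rw [e5]
      exact mul_le_mul (norm_dd k) (by linarith) (by positivity) (by linarith)
    unfold rr at hf
    linarith
  have e6 : ‖p 0 - 3 / 4‖ ≤ 15 / 4 := by
    refine (norm_sub_le _ _).trans ?_
    have : ‖(3 / 4 : ℂ)‖ = 3 / 4 := by norm_num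
    rw [this]; linarith
  have e7 : ‖xx k - 3 / 4‖ ≤ 11 / 4 := by
    refine (norm_sub_le _ _).trans ?_
    have : ‖(3 / 4 : ℂ)‖ = 3 / 4 := by norm_num
    have := norm_xx k
    linarith
  have e8 : |‖p 0 - 3 / 4‖ - ‖xx k - 3 / 4‖| ≤ ‖p 0 - xx k‖ := by
    have := abs_norm_sub_norm_le (p 0 - 3 / 4) (xx k - 3 / 4)
    simpa using this
  have e9 : fA p - ‖xx k - 3 / 4‖ ^ 2
      = (‖p 0 - 3 / 4‖ - ‖xx k - 3 / 4‖) * (‖p 0 - 3 / 4‖ + ‖xx k - 3 / 4‖) := by
    unfold fA; ring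
  rw [e9, abs_mul, abs_of_nonneg (a := ‖p 0 - 3 / 4‖ + ‖xx k - 3 / 4‖) (by positivity)]
  calc |‖p 0 - 3 / 4‖ - ‖xx k - 3 / 4‖| * (‖p 0 - 3 / 4‖ + ‖xx k - 3 / 4‖)
      ≤ ((4 + 9 / 16) * ee k) * (13 / 2) :=
        mul_le_mul (e8.trans e2) (by linarith) (by positivity) (by positivity)
    _ ≤ 32 * ee k := by nlinarith

lemma norm_fF_lt {k : ℕ} {p : E3} (h : p ∈ Om0) : ‖fF k p‖ ≤ 6 := by
  obtain ⟨h0, _, h2⟩ := h
  have he := ee_le k
  have he' := ee_pos k
  have e3 : ‖dd k * (1 - cc k * p 2) / 2‖ ≤ 3 * ee k * (3 / 2) := by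
    rw [norm_div, norm_mul, mul_div_assoc]
    have e4 : ‖1 - cc k * p 2‖ ≤ 3 := by
      refine (norm_sub_le _ _).trans ?_
      rw [norm_mul, norm_cc, norm_one]; linarith
    have e5 : ‖(2:ℂ)‖ = 2 := by norm_num
    rw [e5]
    exact mul_le_mul (norm_dd k) (by linarith) (by positivity) (by linarith)
  unfold fF
  refine (norm_sub_le _ _).trans ?_
  have := norm_sub_le (p 0) (xx k)
  have := norm_xx k
  linarith

lemma gG_le {k : ℕ} {p : E3} (h : p ∈ Om0) : gG k p ≤ fA p := by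
  unfold gG
  have h1 : Real.log (max ‖fF k p‖ (ss k) / 6) ≤ 0 := by
    have hs := ss_pos k
    have : 0 < max ‖fF k p‖ (ss k) := lt_max_of_lt_right hs
    apply Real.log_nonpos (by positivity)
    rw [div_le_one (by norm_num)]
    apply max_le (norm_fF_lt h)
    have := ss_lt k
    have := rr_le k
    linarith
  have h2 : 0 ≤ 64 * ee k / LL k := by
    have := ee_pos k
    have := LL_pos k
    positivity
  nlinarith [mul_nonneg h2 (neg_nonneg.2 h1)]

lemma log_rr (k : ℕ) : Real.log (rr k / 6) = - LL k := by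
  unfold LL
  rw [← Real.log_inv, inv_div]

lemma log_ss (k : ℕ) : Real.log (ss k / 6) = - (2 * LL k) := by
  have h : ss k / 6 = (rr k / 6) ^ 2 := by unfold ss; ring
  rw [h, Real.log_pow, log_rr]
  push_cast; ring

lemma gG_ge {k : ℕ} (p : E3) : fA p - 128 * ee k ≤ gG k p := by
  unfold gG
  have h1 : - (2 * LL k) ≤ Real.log (max ‖fF k p‖ (ss k) / 6) := by
    rw [← log_ss]
    have hs := ss_pos k
    apply Real.log_le_log (by positivity)
    apply div_le_div_of_nonneg_right (le_max_right _ _) (by norm_num)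
  have hL := LL_pos k
  have he := ee_pos k
  have h2 : 0 ≤ 64 * ee k / LL k := by positivity
  have h3 : (64 * ee k / LL k) * (- (2 * LL k)) = - (128 * ee k) := by
    field_simp; ring
  have := mul_le_mul_of_nonneg_left h1 h2
  linarith

lemma gG_at_rr {k : ℕ} {p : E3} (h : p ∈ Om0) (hf : ‖fF k p‖ = rr k) : vv k ≤ gG k p := by
  have h1 := A_close h hf.le
  have h2 := (abs_le.1 h1).1
  unfold gG vv
  rw [hf, max_eq_left (ss_lt k).le, log_rr]
  have hL := LL_pos k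
  have h3 : (64 * ee k / LL k) * (- LL k) = - (64 * ee k) := by
    field_simp
  rw [h3]
  linarith

lemma gG_at_ss {k : ℕ} {p : E3} (h : p ∈ Om0) (hf : ‖fF k p‖ ≤ ss k) : gG k p ≤ vv k := by
  have h1 := A_close h (hf.trans (ss_lt k).le)
  have h2 := (abs_le.1 h1).2
  unfold gG vv
  rw [max_eq_right hf, log_ss]
  have hL := LL_pos k
  have h3 : (64 * ee k / LL k) * (- (2 * LL k)) = - (128 * ee k) := by
    field_simp; ring
  rw [h3]
  linarith

lemma vv_le {k : ℕ} {p : E3} (h : p ∈ Om0) (hf : ‖fF k p‖ ≤ rr k) : vv k ≤ fA p := by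
  have h1 := A_close h hf
  have h2 := (abs_le.1 h1).1
  have := ee_pos k
  unfold vv; linarith

lemma bB_le_vv {k : ℕ} {p : E3} (h : p ∈ Om0) : bB p ≤ vv k := by
  obtain ⟨h0, h1, h2⟩ := h
  unfold bB vv
  rw [norm_sq3]
  have := xx_far k
  have := ee_le k
  have a0 : ‖p 0‖ ^ 2 ≤ 9 := by nlinarith [norm_nonneg (p 0)]
  have a1 : ‖p 1‖ ^ 2 ≤ 1 := by nlinarith [norm_nonneg (p 1)]
  have a2 : ‖p 2‖ ^ 2 ≤ 4 := by nlinarith [norm_nonneg (p 2)]
  nlinarith

/-- `h_k ≤ ρ²/2` on the slab -/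
lemma hh_le {k : ℕ} {t : ℝ} (ht : t < rho k) : hh k t ≤ rho k ^ 2 / 2 := by
  unfold hh
  have h1 := rho_pos k
  have h2 := sg_lt k
  have hs := sg_pos k
  have h3 : Real.log (max t (sg k) / rho k) ≤ 0 := by
    have : 0 < max t (sg k) := lt_max_of_lt_right hs
    apply Real.log_nonpos (by positivity)
    rw [div_le_one h1]
    exact max_le ht.le (by linarith)
  nlinarith [mul_nonneg (sq_nonneg (rho k)) (neg_nonneg.2 h3), sq_nonneg t]

lemma hh_outer {k : ℕ} {t : ℝ} (ht : t < rho k) (ht' : 7 * rho k / 8 ≤ t) : hh k t ≤ 0 := by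
  unfold hh
  have h1 := rho_pos k
  have h2 := sg_lt k
  have hs := sg_pos k
  have h3 : Real.log (max t (sg k) / rho k) ≤ 0 := by
    have : 0 < max t (sg k) := lt_max_of_lt_right hs
    apply Real.log_nonpos (by positivity)
    rw [div_le_one h1]
    exact max_le ht.le (by linarith)
  have h4 : (7 * rho k / 8) ^ 2 ≤ t ^ 2 := by
    apply pow_le_pow_left₀ (by positivity) ht'
  nlinarith [mul_nonneg (sq_nonneg (rho k)) (neg_nonneg.2 h3)]

lemma hh_ring {k : ℕ} {t : ℝ} (ht : t ≤ rho k / 2) (ht' : rho k / 4 ≤ t) : 0 ≤ hh k t := by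
  unfold hh
  have h1 := rho_pos k
  have h2 := sg_lt k
  have hs := sg_pos k
  have h3 : -(7/5 : ℝ) ≤ Real.log (max t (sg k) / rho k) := by
    have e1 : (1/4:ℝ) ≤ max t (sg k) / rho k := by
      rw [le_div_iff₀ h1]
      exact le_trans (by linarith) (le_max_left _ _)
    have e2 : Real.log (1/4) ≤ Real.log (max t (sg k) / rho k) :=
      Real.log_le_log (by norm_num) e1
    have e3 : Real.log (1/4 : ℝ) = - (2 * Real.log 2) := by
      rw [one_div, Real.log_inv, show (4:ℝ) = 2 ^ 2 by norm_num, Real.log_pow]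
      push_cast; ring
    have e4 := Real.log_two_lt_d9
    linarith
  have h4 : t ^ 2 ≤ (rho k / 2) ^ 2 := pow_le_pow_left₀ (by linarith) ht 2
  nlinarith [mul_nonneg (sq_nonneg (rho k)) (sub_nonneg.2 h3)]

lemma hh_tube {k : ℕ} {t : ℝ} (ht : t ≤ sg k) : hh k t ≤ -2 := by
  unfold hh
  have h1 := rho_pos k
  have h1' := rho_le k
  have hs := sg_pos k
  rw [max_eq_right ht]
  have e1 : Real.log (sg k / rho k) = -(40 / rho k ^ 2) := by
    unfold sg
    rw [mul_div_cancel_left₀ _ h1.ne', Real.log_exp]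
  rw [e1]
  have e2 : rho k ^ 2 / 16 * -(40 / rho k ^ 2) = -(5 / 2) := by
    field_simp; norm_num
  rw [e2]
  nlinarith [sq_nonneg t]

lemma aa_gap {j k : ℕ} (h : j < k) : rho j + rho k < aa j - aa k := by
  have := aa_half h
  have := aa_pos j
  have := aa_pos k
  unfold rho
  linarith

lemma slab_unique {j k : ℕ} {p : E3} (hj : fT j p < rho j) (hk : fT k p < rho k) : j = k := by
  by_contra hne
  have h1 : ‖(aa j : ℂ) - aa k‖ ≤ fT j p + fT k p := by
    have e : (aa j : ℂ) - aa k = (p 1 - aa k) - (p 1 - aa j) := by ring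
    rw [e]
    refine (norm_sub_le _ _).trans ?_
    unfold fT; linarith
  have h2 : ‖(aa j : ℂ) - aa k‖ = |aa j - aa k| := by
    rw [← Complex.ofReal_sub, Complex.norm_real, Real.norm_eq_abs]
  rw [h2] at h1
  rcases lt_or_gt_of_ne hne with h | h
  · have := aa_gap h
    have := le_abs_self (aa j - aa k)
    linarith
  · have := aa_gap h
    have := neg_abs_le (aa j - aa k)
    linarith

end

end U500Core
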